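import Mathlib

set_option autoImplicit false
set_option linter.unusedSectionVars false

namespace Pool.Agent.Helper207.EklofHerzog

/-!
Counterexample to the Eklof-Herzog question (is every indecomposable pure-injective module over a
commutative valuation ring the pure-injective hull of a uniserial module?).

* `EH.Om` is a well-order of type `omega_2`, `EH.Gam Om` an ordered abelian group with elements `al i`, `pi l`,
  `EH.Fl Om` a field with elements `XX a b l` and translations `shiftF w`.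
* `Setup.KK` is a subfield of the field of Hahn series, the directed union of the fields `KS S`, `S` finite.
  `Setup.Del S m` are locally defined derivations which agree modulo `KK + Dh` (`Setup.glue`).
* `Setup.RR` is the ring of all pairs `(a, b)`, `a` in the valuation ring `O` of `KK`, `b - Del S m a` in `KK + Dh`,
  modulo the pairs `(0, b)`, `b` in `Dh`. It is a chain ring, an extension of `O` by `KK / O` (`Setup.rd`).
* The injective hull of a cyclic module `RR / I` (`I` is given by the cut of the `al i`) is indecomposable and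
  pure-injective. A pure uniserial submodule would give a trivialisation of the 2-cocycle
  `X i j l + X j k l - X i k l` with values in `KK` (`RD.main`, `Setup.cocycle`), and this is impossible by a
  combinatorial property of `omega_2` (`comb`, `Setup.no_split`).
-/





namespace EH

open Set Cardinal

section Comb

/-- Small subsets of a successor cardinal's well-order are strictly bounded. -/
theorem bdd_of_small {κ : Cardinal.{0}} (hκ : ℵ₀ ≤ κ) (A : Set (Order.succ κ).ord.ToType)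
    (hA : #A ≤ κ) : ∃ b, ∀ a ∈ A, a < b := by
  by_contra hcon
  push Not at hcon
  have huniv : (Set.univ : Set (Order.succ κ).ord.ToType) = ⋃ a ∈ A, Set.Iic a := by
    symm
    rw [Set.eq_univ_iff_forall]
    intro b
    obtain ⟨a, ha, hab⟩ := hcon b
    simp only [Set.mem_iUnion]
    exact ⟨a, ha, hab⟩
  have h1 : #(⋃ a ∈ A, Set.Iic a : Set (Order.succ κ).ord.ToType) ≤ κ := by
    refine (Cardinal.mk_biUnion_le _ _).trans ?_
    have h2 : (⨆ x : A, #(Set.Iic (x : (Order.succ κ).ord.ToType))) ≤ κ := by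
      refine ciSup_le' ?_
      intro x
      have h3 : #(Set.Iio (x : (Order.succ κ).ord.ToType)) < Order.succ κ :=
        Cardinal.mk_Iio_toType_ord_lt _
      have h4 : #(Set.Iio (x : (Order.succ κ).ord.ToType)) ≤ κ := Order.lt_succ_iff.mp h3
      have h5 : Set.Iic (x : (Order.succ κ).ord.ToType) ⊆ insert (x : (Order.succ κ).ord.ToType) (Set.Iio (x : (Order.succ κ).ord.ToType)) := by
        intro y hy
        rcases eq_or_lt_of_le (Set.mem_Iic.mp hy) with h | h
        · exact Set.mem_insert_iff.mpr (Or.inl h)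
        · exact Set.mem_insert_iff.mpr (Or.inr h)
      refine (Cardinal.mk_le_mk_of_subset h5).trans ?_
      refine Cardinal.mk_insert_le.trans ?_
      refine (add_le_add h4 (le_trans (Cardinal.one_le_aleph0) hκ)).trans ?_
      exact (Cardinal.add_eq_self hκ).le
    calc #A * (⨆ x : A, #(Set.Iic (x : (Order.succ κ).ord.ToType))) ≤ κ * κ := mul_le_mul' hA h2
      _ = κ := Cardinal.mul_eq_self hκ
  rw [← huniv, Cardinal.mk_univ, Cardinal.mk_ord_toType] at h1
  exact absurd h1 (not_le.mpr (Order.lt_succ κ))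

/-- omega_2-like well order -/
abbrev Om : Type := (Order.succ (Order.succ ℵ₀ : Cardinal.{0})).ord.ToType
/-- omega_1-like well order -/
abbrev W1 : Type := (Order.succ (ℵ₀ : Cardinal.{0})).ord.ToType

theorem bddW1 (A : Set W1) (hA : A.Countable) : ∃ b, ∀ a ∈ A, a < b :=
  bdd_of_small le_rfl A (by rw [Cardinal.le_aleph0_iff_set_countable]; exact hA)

theorem bddOm (A : Set Om) (hA : #A ≤ Order.succ ℵ₀) : ∃ b, ∀ a ∈ A, a < b :=
  bdd_of_small (Order.le_succ _) A hA

theorem mkW1 : #W1 = Order.succ ℵ₀ := Cardinal.mk_ord_toType _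

theorem W1_Iio_countable (x : W1) : (Set.Iio x).Countable := by
  have h3 : #(Set.Iio x) < Order.succ ℵ₀ := Cardinal.mk_Iio_toType_ord_lt _
  exact Cardinal.le_aleph0_iff_set_countable.mp (Order.lt_succ_iff.mp h3)

theorem Om_Iio (x : Om) : #(Set.Iio x) ≤ Order.succ ℵ₀ := by
  have h3 : #(Set.Iio x) < Order.succ (Order.succ ℵ₀) := Cardinal.mk_Iio_toType_ord_lt _
  exact Order.lt_succ_iff.mp h3

theorem small_stage (S : Om → Om → Finset Om) (x : Om) :
    #(({x} ∪ ⋃ i ∈ Set.Iio x, ⋃ j ∈ Set.Iio x, (S i j : Set Om) : Set Om)) ≤ Order.succ ℵ₀ := by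
  have hk : ℵ₀ ≤ Order.succ (ℵ₀ : Cardinal.{0}) := Order.le_succ _
  have hin : ∀ i : Om, #((⋃ j ∈ Set.Iio x, (S i j : Set Om) : Set Om)) ≤ Order.succ ℵ₀ := by
    intro i
    refine (Cardinal.mk_biUnion_le _ _).trans ?_
    have h2 : (⨆ j : Set.Iio x, #((S i j : Set Om) : Set Om)) ≤ Order.succ ℵ₀ := by
      refine ciSup_le' ?_
      intro j
      refine le_trans ?_ hk
      exact (Cardinal.lt_aleph0_of_finite _).le
    calc _ ≤ Order.succ ℵ₀ * Order.succ ℵ₀ := mul_le_mul' (Om_Iio x) h2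
      _ = _ := Cardinal.mul_eq_self hk
  refine (Cardinal.mk_union_le _ _).trans ?_
  have h1 : #({x} : Set Om) ≤ Order.succ ℵ₀ := by
    rw [Cardinal.mk_singleton]
    exact le_trans Cardinal.one_le_aleph0 hk
  have h2 : #((⋃ i ∈ Set.Iio x, ⋃ j ∈ Set.Iio x, (S i j : Set Om) : Set Om)) ≤ Order.succ ℵ₀ := by
    refine (Cardinal.mk_biUnion_le _ _).trans ?_
    refine (mul_le_mul' (Om_Iio x) (ciSup_le' fun i : Set.Iio x => hin i.1)).trans ?_
    exact (Cardinal.mul_eq_self hk).le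
  exact (add_le_add h1 h2).trans (Cardinal.add_eq_self hk).le

/-- existence of `δ` -/
theorem exists_delta (S : Om → Om → Finset Om) :
    ∃ δ : Om, (∃ x, x < δ) ∧ (∀ i j, i < δ → j < δ → ∀ m ∈ S i j, m < δ) ∧
      (∀ x : ℕ → Om, (∀ n, x n < δ) → ∃ b, b < δ ∧ ∀ n, x n < b) := by
  classical
  -- the step
  have hstep : ∀ (ξ : W1) (g : ∀ η : W1, η < ξ → Om), ∃ b : Om, ∀ η (h : η < ξ),
      g η h < b ∧ ∀ i < g η h, ∀ j < g η h, ∀ m ∈ S i j, m < b := by
    intro ξ g
    have hc : #((⋃ η : Set.Iio ξ, ({g η.1 η.2} ∪ ⋃ i ∈ Set.Iio (g η.1 η.2), ⋃ j ∈ Set.Iio (g η.1 η.2), (S i j : Set Om)) : Set Om)) ≤ Order.succ ℵ₀ := by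
      refine (Cardinal.mk_iUnion_le _).trans ?_
      have h1 : #(Set.Iio ξ) ≤ Order.succ ℵ₀ := le_trans (by
        rw [Cardinal.le_aleph0_iff_set_countable]; exact W1_Iio_countable ξ) (Order.le_succ _)
      calc _ ≤ Order.succ ℵ₀ * Order.succ ℵ₀ := mul_le_mul' h1 (ciSup_le' fun i => small_stage S _)
        _ = _ := Cardinal.mul_eq_self (Order.le_succ _)
    obtain ⟨b, hb⟩ := bddOm _ hc
    refine ⟨b, fun η h => ⟨hb _ ?_, fun i hi j hj m hm => hb _ ?_⟩⟩
    · rw [Set.mem_iUnion]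
      exact ⟨⟨η, h⟩, Or.inl rfl⟩
    · rw [Set.mem_iUnion]
      refine ⟨⟨η, h⟩, Or.inr ?_⟩
      simp only [Set.mem_iUnion]
      exact ⟨i, hi, j, hj, hm⟩
  choose F hF using hstep
  let f : W1 → Om := WellFoundedLT.fix (motive := fun _ => Om) F
  have hf : ∀ ξ, f ξ = F ξ (fun η _ => f η) := fun ξ => WellFoundedLT.fix_eq _ _
  have hlt : ∀ η ξ : W1, η < ξ → f η < f ξ := by
    intro η ξ h
    rw [hf ξ]
    exact (hF ξ (fun η _ => f η) η h).1
  have hcl : ∀ η ξ : W1, η < ξ → ∀ i < f η, ∀ j < f η, ∀ m ∈ S i j, m < f ξ := by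
    intro η ξ h
    rw [hf ξ]
    exact (hF ξ (fun η _ => f η) η h).2
  have hrange : #(Set.range f) ≤ Order.succ ℵ₀ := by
    refine Cardinal.mk_range_le.trans ?_
    rw [mkW1]
  obtain ⟨b0, hb0⟩ := bddOm _ hrange
  obtain ⟨δ, hδ, hmin⟩ := WellFounded.has_min (wellFounded_lt (α := Om)) {b | ∀ a ∈ Set.range f, a < b} ⟨b0, hb0⟩
  have hbelow : ∀ x, x < δ → ∃ ξ, x ≤ f ξ := by
    intro x hx
    by_contra hcon
    push Not at hcon
    refine hmin x ?_ hx
    rintro _ ⟨ξ, rfl⟩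
    exact hcon ξ
  have hfδ : ∀ ξ, f ξ < δ := fun ξ => hδ _ ⟨ξ, rfl⟩
  obtain ⟨w0, -⟩ := bddW1 ∅ Set.countable_empty
  refine ⟨δ, ⟨f w0, hfδ w0⟩, ?_, ?_⟩
  · intro i j hi hj m hm
    obtain ⟨ξ1, h1⟩ := hbelow i hi
    obtain ⟨ξ2, h2⟩ := hbelow j hj
    obtain ⟨ξ, hξ⟩ := bddW1 {ξ1, ξ2} (Set.toFinite _).countable
    obtain ⟨ξ', hξ'⟩ := bddW1 {ξ} (Set.toFinite _).countable
    have h3 : i < f ξ := lt_of_le_of_lt h1 (hlt _ _ (hξ ξ1 (by simp)))
    have h4 : j < f ξ := lt_of_le_of_lt h2 (hlt _ _ (hξ ξ2 (by simp)))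
    exact lt_trans (hcl ξ ξ' (hξ' ξ (by simp)) i h3 j h4 m hm) (hfδ _)
  · intro x hx
    choose ξ hξ using fun n => hbelow (x n) (hx n)
    obtain ⟨ζ, hζ⟩ := bddW1 (Set.range ξ) (Set.countable_range ξ)
    exact ⟨f ζ, hfδ ζ, fun n => lt_of_le_of_lt (hξ n) (hlt _ _ (hζ _ ⟨n, rfl⟩))⟩

theorem comb (S : Om → Om → Finset Om) :
    ∃ l i j k : Om, l < i ∧ i < j ∧ j < k ∧ l ∉ S i j ∧ l ∉ S j k ∧ l ∉ S i k ∧
      ∀ m, l < m → m ∈ S i j → m ∈ S j k → m ∈ S i k → False := by
  classical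
  obtain ⟨δ, ⟨x0, hx0⟩, hcl, hbd⟩ := exists_delta S
  haveI : Nonempty Om := ⟨x0⟩
  -- bounded finite sets
  have hfin : ∀ T : Finset Om, (∀ t ∈ T, t < δ) → ∃ b < δ, ∀ t ∈ T, t < b := by
    intro T hT
    rcases T.eq_empty_or_nonempty with h | h
    · exact ⟨x0, hx0, by simp [h]⟩
    · obtain ⟨b, hb, hb'⟩ := hbd (fun _ => T.max' h) (fun _ => hT _ (T.max'_mem h))
      exact ⟨b, hb, fun t ht => lt_of_le_of_lt (T.le_max' t ht) (hb' 0)⟩
  have hnext : ∀ x, x < δ → ∃ y, x < y ∧ y < δ := by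
    intro x hx
    obtain ⟨b, hb, hb'⟩ := hfin {x} (by simpa using hx)
    exact ⟨b, hb' x (by simp), hb⟩
  -- limit points
  have hlim : ∀ x, x < δ → ∃ i, x < i ∧ i < δ ∧ ∀ y, y < i → ∃ z, y < z ∧ z < i := by
    intro x hx
    choose! nx hnx1 hnx2 using hnext
    let s : ℕ → Om := fun n => nx^[n] x
    have hs : ∀ n, s n < δ := by
      intro n
      induction n with
      | zero => exact hx
      | succ n ih =>
        show nx^[n+1] x < δ
        rw [Function.iterate_succ_apply']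
        exact hnx2 _ ih
    have hs' : ∀ n, s n < s (n+1) := by
      intro n
      show s n < nx^[n+1] x
      rw [Function.iterate_succ_apply']
      exact hnx1 _ (hs n)
    obtain ⟨b, hb, hb'⟩ := hbd s hs
    obtain ⟨i, hi, hmin⟩ := WellFounded.has_min (wellFounded_lt (α := Om)) {b | ∀ n, s n < b} ⟨b, hb'⟩
    refine ⟨i, hi 0, lt_of_le_of_lt (not_lt.mp (hmin b hb')) hb, ?_⟩
    intro y hy
    have : ¬ ∀ n, s n < y := fun h => hmin y h hy
    push Not at this
    obtain ⟨n, hn⟩ := this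
    exact ⟨s (n+1), lt_of_le_of_lt hn (hs' n), hi _⟩
  -- the sequence
  have hstep : ∀ x, x < δ → ∃ i, x < i ∧ i < δ ∧ (∀ y, y < i → ∃ z, y < z ∧ z < i) ∧
      ∀ m ∈ S x δ, m < δ → m < i := by
    intro x hx
    obtain ⟨b, hb, hb'⟩ := hfin (insert x ((S x δ).filter (· < δ))) (by
      intro t ht
      rw [Finset.mem_insert, Finset.mem_filter] at ht
      rcases ht with rfl | ht
      · exact hx
      · exact ht.2)
    obtain ⟨i, h1, h2, h3⟩ := hlim b hb
    refine ⟨i, lt_trans (hb' x (Finset.mem_insert_self _ _)) h1, h2, h3, ?_⟩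
    intro m hm hmδ
    exact lt_trans (hb' m (Finset.mem_insert_of_mem (Finset.mem_filter.mpr ⟨hm, hmδ⟩))) h1
  choose! st hst1 hst2 hst3 hst4 using hstep
  let s : ℕ → Om := fun n => st^[n] (st x0)
  have hs : ∀ n, s n < δ := by
    intro n
    induction n with
    | zero => exact hst2 _ hx0
    | succ n ih =>
      show st^[n+1] (st x0) < δ
      rw [Function.iterate_succ_apply']
      exact hst2 _ ih
  have hsucc : ∀ n, s (n+1) = st (s n) := by
    intro n
    show st^[n+1] (st x0) = _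
    rw [Function.iterate_succ_apply']
  have hslt : ∀ n, s n < s (n+1) := by
    intro n
    rw [hsucc]
    exact hst1 _ (hs n)
  have hmono : StrictMono s := strictMono_nat_of_lt_succ hslt
  have hslim : ∀ n, ∀ y, y < s n → ∃ z, y < z ∧ z < s n := by
    intro n
    cases n with
    | zero => exact hst3 _ hx0
    | succ n => rw [hsucc]; exact hst3 _ (hs n)
  obtain ⟨j, hj, hj'⟩ := hbd s hs
  -- find n
  have hex : ∃ n, ∀ m, s n ≤ m → m ∈ S (s n) j → m ∈ S j δ → m ∈ S (s n) δ → False := by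
    by_contra hcon
    push Not at hcon
    choose m hm1 hm2 hm3 hm4 using hcon
    have hmlt : ∀ n, m n < s (n+1) := by
      intro n
      rw [hsucc]
      exact hst4 _ (hs n) _ (hm4 n).1 (hcl _ _ (hs n) hj _ (hm2 n))
    have hmm : StrictMono m := strictMono_nat_of_lt_succ (fun n => lt_of_lt_of_le (hmlt n) (hm1 (n+1)))
    have : (S j δ : Set Om).Infinite := Set.infinite_of_injective_forall_mem hmm.injective hm3
    exact this (Finset.finite_toSet _)
  obtain ⟨n, hn⟩ := hex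
  set i := s n with hi
  -- choose l
  have hl : ∃ l, l < i ∧ ∀ t ∈ (S i j ∪ S j δ ∪ S i δ).filter (· < i), t < l := by
    rcases ((S i j ∪ S j δ ∪ S i δ).filter (· < i)).eq_empty_or_nonempty with h | h
    · rw [h]
      have hx0i : x0 < i := lt_of_lt_of_le (hst1 x0 hx0) (hmono.monotone (Nat.zero_le n))
      exact ⟨x0, hx0i, by simp⟩
    · have hmem := Finset.max'_mem _ h
      obtain ⟨z, hz1, hz2⟩ := hslim n _ (Finset.mem_filter.mp hmem).2
      exact ⟨z, hz2, fun t ht => lt_of_le_of_lt (Finset.le_max' _ t ht) hz1⟩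
  obtain ⟨l, hli, hl⟩ := hl
  have hnot : ∀ t, t < i → (t ∈ S i j ∨ t ∈ S j δ ∨ t ∈ S i δ) → t < l := by
    intro t ht h
    apply hl
    rw [Finset.mem_filter, Finset.mem_union, Finset.mem_union]
    tauto
  refine ⟨l, i, j, δ, hli, hj' n, hj, fun h => lt_irrefl _ (hnot l hli (Or.inl h)),
    fun h => lt_irrefl _ (hnot l hli (Or.inr (Or.inl h))), fun h => lt_irrefl _ (hnot l hli (Or.inr (Or.inr h))), ?_⟩
  intro m hlm h1 h2 h3
  rcases lt_or_ge m i with h | h
  · exact lt_asymm hlm (hnot m h (Or.inl h1))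
  · exact hn m h h1 h2 h3

end Comb

end EH





namespace EH

section Grp

variable (Ω : Type) [LinearOrder Ω] [WellFoundedLT Ω]

/-- The value group. -/
def Gam : Type := (Ω →₀ ℤ) × (Ω →₀ ℤ)

noncomputable instance : AddCommGroup (Gam Ω) := inferInstanceAs (AddCommGroup ((Ω →₀ ℤ) × (Ω →₀ ℤ)))

variable {Ω}

namespace Gam

/-- coordinate `c_s` -/
noncomputable def c (s : Ω) : Gam Ω →+ ℤ := (Finsupp.applyAddHom s).comp (AddMonoidHom.fst _ _)

/-- coordinate `m_l` -/
noncomputable def m (s : Ω) : Gam Ω →+ ℤ := (Finsupp.applyAddHom s).comp (AddMonoidHom.snd _ _)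

/-- tail sum `σ_l` -/
noncomputable def σ (l : Ω) : Gam Ω →+ ℤ :=
  (Finsupp.liftAddHom (fun s : Ω => if l ≤ s then AddMonoidHom.id ℤ else 0)).comp (AddMonoidHom.fst _ _)

/-- the generator `α_i` -/
noncomputable def al (i : Ω) : Gam Ω := (Finsupp.single i 1, 0)

/-- the generator `π_l` -/
noncomputable def pi (l : Ω) : Gam Ω := (0, Finsupp.single l 1)

theorem c_al (s i : Ω) : c s (al i) = if s = i then 1 else 0 := by
  classical
  show (Finsupp.single i (1:ℤ)) s = _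
  rw [Finsupp.single_apply]
  simp only [eq_comm]

theorem c_pi (s l : Ω) : c s (pi l) = 0 := rfl

theorem m_pi (s l : Ω) : m s (pi l) = if s = l then 1 else 0 := by
  classical
  show (Finsupp.single l (1:ℤ)) s = _
  rw [Finsupp.single_apply]
  simp only [eq_comm]

theorem m_al (s l : Ω) : m s (al l) = 0 := rfl

theorem σ_al (l i : Ω) : σ l (al i) = if l ≤ i then 1 else 0 := by
  classical
  show (Finsupp.liftAddHom (fun s : Ω => if l ≤ s then AddMonoidHom.id ℤ else 0)) (Finsupp.single i 1) = _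
  rw [Finsupp.liftAddHom_apply_single]
  split_ifs <;> rfl

theorem σ_pi (l i : Ω) : σ l (pi i) = 0 := by
  classical
  show (Finsupp.liftAddHom (fun s : Ω => if l ≤ s then AddMonoidHom.id ℤ else 0)) 0 = _
  rw [map_zero]

theorem σ_eq (l : Ω) (γ : Gam Ω) (S : Finset Ω) (hS : ∀ s, s ∉ S → c s γ = 0) :
    σ l γ = ∑ s ∈ S, if l ≤ s then c s γ else 0 := by
  classical
  show (Finsupp.liftAddHom (fun s : Ω => if l ≤ s then AddMonoidHom.id ℤ else 0)) γ.1 = _
  rw [Finsupp.liftAddHom_apply, Finsupp.sum_of_support_subset (s := S)]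
  · apply Finset.sum_congr rfl
    intro s _
    split_ifs <;> rfl
  · intro s hs
    by_contra h
    exact (Finsupp.mem_support_iff.mp hs) (hS s h)
  · intro i _
    split_ifs <;> simp

/-- the key -/
noncomputable def key (γ : Gam Ω) : Lex (Ω → ℤ ×ₗ ℤ) := toLex (fun l => toLex (σ l γ, m l γ))

theorem key_add (γ δ : Gam Ω) : key (γ + δ) = key γ + key δ := by
  unfold key
  rw [← toLex_add]
  congr 1
  funext l
  show toLex (σ l (γ+δ), m l (γ+δ)) = toLex (σ l γ, m l γ) + toLex (σ l δ, m l δ)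
  rw [map_add, map_add, ← toLex_add]
  rfl

theorem key_inj : Function.Injective (key : Gam Ω → Lex (Ω → ℤ ×ₗ ℤ)) := by
  classical
  intro γ δ h
  have h1 : ∀ l, σ l γ = σ l δ ∧ m l γ = m l δ := by
    intro l
    have h2 := congrFun (toLex.injective h) l
    have h3 := toLex.injective h2
    exact Prod.mk.inj h3
  have h0 : ∀ l, σ l (γ - δ) = 0 ∧ m l (γ - δ) = 0 := by
    intro l
    rw [map_sub, map_sub, (h1 l).1, (h1 l).2]
    simp
  have h4 : (γ - δ : Gam Ω).2 = 0 := by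
    ext l
    exact (h0 l).2
  have h5 : (γ - δ : Gam Ω).1 = 0 := by
    by_contra hne
    have hsup : ((γ - δ : Gam Ω).1.support).Nonempty := Finsupp.support_nonempty_iff.mpr hne
    set s := ((γ - δ : Gam Ω).1.support).max' hsup with hs
    have hsm : s ∈ (γ - δ : Gam Ω).1.support := Finset.max'_mem _ _
    have h6 := (h0 s).1
    rw [σ_eq s (γ - δ) ((γ - δ : Gam Ω).1.support) (fun t ht => Finsupp.notMem_support_iff.mp ht)] at h6
    rw [Finset.sum_eq_single s] at h6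
    · rw [if_pos le_rfl] at h6
      exact (Finsupp.mem_support_iff.mp hsm) h6
    · intro t ht hts
      rw [if_neg]
      intro hle
      exact hts (le_antisymm (Finset.le_max' _ t ht) hle)
    · intro hn
      exact absurd hsm hn
  have h7 : (γ - δ : Gam Ω) = 0 := Prod.ext h5 h4
  exact sub_eq_zero.mp h7

noncomputable instance : LinearOrder (Gam Ω) := LinearOrder.lift' key key_inj

theorem key_le (γ δ : Gam Ω) : key γ ≤ key δ ↔ γ ≤ δ := Iff.rfl

theorem key_lt (γ δ : Gam Ω) : key γ < key δ ↔ γ < δ := Iff.rfl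

noncomputable instance : IsOrderedAddMonoid (Gam Ω) :=
  Function.Injective.isOrderedAddMonoid key key_add (fun {x y} => key_le x y)

theorem lt_iff (γ δ : Gam Ω) : γ < δ ↔ ∃ l, (∀ l' < l, σ l' γ = σ l' δ ∧ m l' γ = m l' δ) ∧
    (σ l γ < σ l δ ∨ (σ l γ = σ l δ ∧ m l γ < m l δ)) := by
  rw [← key_lt]
  constructor
  · rintro ⟨l, h1, h2⟩
    refine ⟨l, fun l' hl' => ?_, ?_⟩
    · exact Prod.mk.inj (toLex.injective (h1 l' hl'))
    · have h3 : toLex (σ l γ, m l γ) < toLex (σ l δ, m l δ) := h2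
      rw [Prod.Lex.toLex_lt_toLex] at h3
      exact h3
  · rintro ⟨l, h1, h2⟩
    refine ⟨l, fun l' hl' => ?_, ?_⟩
    · show toLex (σ l' γ, m l' γ) = toLex (σ l' δ, m l' δ)
      rw [(h1 l' hl').1, (h1 l' hl').2]
    · show toLex (σ l γ, m l γ) < toLex (σ l δ, m l δ)
      rw [Prod.Lex.toLex_lt_toLex]
      exact h2

theorem al_lt (i k : Ω) (h : i < k) : al i < al k := by
  -- first index where they differ: least l with i < l
  obtain ⟨l, hl, hmin⟩ := WellFounded.has_min (wellFounded_lt (α := Ω)) {l | i < l} ⟨k, h⟩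
  rw [lt_iff]
  refine ⟨l, fun l' hl' => ?_, Or.inl ?_⟩
  · have h1 : l' ≤ i := by
      by_contra hcon
      exact hmin l' (not_le.mp hcon) hl'
    rw [σ_al, σ_al, m_al, m_al, if_pos h1, if_pos (h1.trans h.le)]
    exact ⟨rfl, rfl⟩
  · have h2 : ¬ l ≤ i := not_le.mpr hl
    have h3 : l ≤ k := not_lt.mp (hmin k h)
    rw [σ_al, σ_al, if_neg h2, if_pos h3]
    norm_num

theorem al_lt_chi (bot : Ω) (hbot : ∀ i, bot ≤ i) (i : Ω) : al i < al bot + al bot := by
  rw [lt_iff]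
  refine ⟨bot, fun l' hl' => absurd hl' (not_lt.mpr (hbot l')), Or.inl ?_⟩
  rw [map_add, σ_al, σ_al, if_pos (hbot i), if_pos le_rfl]
  norm_num

theorem pi_lt (l l' : Ω) (h : l < l') : pi l' < pi l := by
  rw [lt_iff]
  refine ⟨l, fun l'' hl'' => ?_, Or.inr ?_⟩
  · rw [σ_pi, σ_pi, m_pi, m_pi, if_neg hl''.ne, if_neg (hl''.trans h).ne]
    exact ⟨rfl, rfl⟩
  · rw [σ_pi, σ_pi, m_pi, m_pi, if_neg h.ne, if_pos rfl]
    norm_num

theorem O2 (l i k : Ω) (h : l < i) (hk : i ≤ k) : al k - al i < pi l := by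
  rw [lt_iff]
  refine ⟨l, fun l' hl' => ?_, Or.inr ?_⟩
  · rw [map_sub, map_sub, σ_pi, m_pi, m_al, m_al, σ_al, σ_al, if_pos ((hl'.trans h).le.trans hk), if_pos (hl'.trans h).le, if_neg hl'.ne]
    norm_num
  · rw [map_sub, map_sub, σ_pi, m_pi, m_al, m_al, σ_al, σ_al, if_pos (h.le.trans hk), if_pos h.le, if_pos rfl]
    norm_num

theorem O1 (l : Ω) (γ : Gam Ω) (h0 : 0 ≤ γ) (h1 : γ < pi l) : σ l γ = 0 := by
  rw [lt_iff] at h1
  obtain ⟨l1, ha, hb⟩ := h1
  rcases eq_or_lt_of_le h0 with h | h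
  · rw [← h, map_zero]
  rw [lt_iff] at h
  obtain ⟨l0, hc, hd⟩ := h
  simp only [map_zero, σ_pi, m_pi] at ha hb hc hd
  rcases lt_trichotomy l1 l with h | h | h
  · exfalso
    rw [if_neg h.ne] at hb
    rcases lt_trichotomy l0 l1 with h' | h' | h'
    · have := ha l0 h'
      rw [if_neg (h'.trans h).ne] at this
      rcases hd with hd | hd
      · omega
      · omega
    · subst h'
      omega
    · have := hc l1 h'
      omega
  · subst h
    rw [if_pos rfl] at hb
    rcases lt_trichotomy l0 l1 with h' | h' | h'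
    · have := ha l0 h'
      rw [if_neg h'.ne] at this
      exfalso
      omega
    · subst h'
      omega
    · have := hc l1 h'
      omega
  · exact (ha l h).1

theorem O1' (l : Ω) (γ : Gam Ω) (S : Finset Ω) (h0 : 0 ≤ γ) (h1 : γ < pi l) (hS : ∀ s, s ∉ S → c s γ = 0)
    (hl : l ∉ S) : ∑ s ∈ S, (if l < s then c s γ else 0) = 0 := by
  have h := O1 l γ h0 h1
  rw [σ_eq l γ S hS] at h
  refine Eq.trans ?_ h
  apply Finset.sum_congr rfl
  intro s hs
  have hne : l ≠ s := fun h => hl (h ▸ hs)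
  have hiff : l < s ↔ l ≤ s := ⟨le_of_lt, fun h => lt_of_le_of_ne h hne⟩
  simp only [hiff]

end Gam

end Grp

end EH





namespace EH

section Fld

variable (Ω : Type)

/-- polynomial ring -/
abbrev Pol : Type := MvPolynomial (Ω × Ω × Ω) ℚ

/-- coefficient field -/
abbrev Fl : Type := FractionRing (Pol Ω)

variable {Ω}

/-- shift of the polynomial ring -/
noncomputable def shiftP (w : Ω → Ω → Ω → ℤ) : Pol Ω →+* Pol Ω :=
  (MvPolynomial.aeval (R := ℚ) (fun v : Ω × Ω × Ω => (MvPolynomial.X v + ((w v.1 v.2.1 v.2.2 : ℤ) : Pol Ω)))).toRingHom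

theorem shiftP_X (w : Ω → Ω → Ω → ℤ) (v : Ω × Ω × Ω) :
    shiftP w (MvPolynomial.X v) = MvPolynomial.X v + ((w v.1 v.2.1 v.2.2 : ℤ) : Pol Ω) := by
  show MvPolynomial.aeval _ (MvPolynomial.X v) = _
  rw [MvPolynomial.aeval_X]

theorem shiftP_comp (w : Ω → Ω → Ω → ℤ) (p : Pol Ω) : shiftP (fun a b l => - w a b l) (shiftP w p) = p := by
  have h : (shiftP (fun a b l => - w a b l)).comp (shiftP w) = RingHom.id _ := by
    apply MvPolynomial.ringHom_ext
    · intro r
      show shiftP (fun a b l => - w a b l) (MvPolynomial.aeval _ (MvPolynomial.C r)) = _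
      rw [MvPolynomial.aeval_C]
      show MvPolynomial.aeval _ (MvPolynomial.C r) = _
      rw [MvPolynomial.aeval_C]
      rfl
    · intro v
      show shiftP (fun a b l => - w a b l) (shiftP w (MvPolynomial.X v)) = MvPolynomial.X v
      rw [shiftP_X, map_add, shiftP_X, map_intCast]
      push_cast
      ring
  exact RingHom.congr_fun h p

theorem shiftP_inj (w : Ω → Ω → Ω → ℤ) : Function.Injective (shiftP w) :=
  Function.LeftInverse.injective (shiftP_comp w)

/-- shift of the field -/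
noncomputable def shiftF (w : Ω → Ω → Ω → ℤ) : Fl Ω →+* Fl Ω :=
  IsFractionRing.lift (A := Pol Ω) (K := Fl Ω) (g := (algebraMap (Pol Ω) (Fl Ω)).comp (shiftP w))
    ((IsFractionRing.injective (Pol Ω) (Fl Ω)).comp (shiftP_inj w))

theorem shiftF_alg (w : Ω → Ω → Ω → ℤ) (p : Pol Ω) :
    shiftF w (algebraMap (Pol Ω) (Fl Ω) p) = algebraMap (Pol Ω) (Fl Ω) (shiftP w p) := by
  unfold shiftF
  rw [IsFractionRing.lift_algebraMap]
  rfl

/-- the elements `X a b l` -/
noncomputable def XX [LinearOrder Ω] (a b l : Ω) : Fl Ω :=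
  if a < b then algebraMap (Pol Ω) (Fl Ω) (MvPolynomial.X (a, b, l)) else 0

theorem shiftF_XX [LinearOrder Ω] (w : Ω → Ω → Ω → ℤ) (a b l : Ω) (h : a < b) :
    shiftF w (XX a b l) = XX a b l + ((w a b l : ℤ) : Fl Ω) := by
  unfold XX
  rw [if_pos h, shiftF_alg, shiftP_X, map_add, map_intCast]

theorem XX_zero [LinearOrder Ω] (a b l : Ω) (h : ¬ a < b) : XX a b l = 0 := by
  unfold XX
  rw [if_neg h]

instance : CharZero (Fl Ω) := inferInstance

end Fld

end EH





namespace EH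

section Hahn

variable {Γ F : Type} [AddCommGroup Γ] [LinearOrder Γ] [IsOrderedAddMonoid Γ] [Field F]

theorem coeff_mul2 {x y : HahnSeries Γ F} {a : Γ} {s t : Set Γ} (hs : s.IsPWO) (ht : t.IsPWO)
    (hx : x.support ⊆ s) (hy : y.support ⊆ t) :
    (x * y).coeff a = ∑ ij ∈ Finset.antidiagonal hs ht a, x.coeff ij.1 * y.coeff ij.2 := by
  rw [HahnSeries.coeff_mul]
  apply Finset.sum_subset
  · intro ij hij
    rw [Finset.mem_antidiagonal] at hij ⊢
    exact ⟨hx hij.1, hy hij.2.1, hij.2.2⟩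
  · intro ij hij hn
    rw [Finset.mem_antidiagonal] at hij hn
    by_contra hne
    have h1 : x.coeff ij.1 ≠ 0 := left_ne_zero_of_mul hne
    have h2 : y.coeff ij.2 ≠ 0 := right_ne_zero_of_mul hne
    exact hn ⟨h1, h2, hij.2.2⟩

/-- twisted endomorphism of the Hahn series field -/
noncomputable def twist (χ : Γ → F) (h0 : χ 0 = 1) (hχ : ∀ a b, χ (a + b) = χ a * χ b) (θ : F →+* F) :
    HahnSeries Γ F →+* HahnSeries Γ F where
  toFun f := 
    { coeff := fun γ => χ γ * θ (f.coeff γ)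
      isPWO_support' := f.isPWO_support.mono (by
        intro γ hγ h
        apply hγ
        show χ γ * θ (f.coeff γ) = 0
        have h' : f.coeff γ = 0 := h
        rw [h', map_zero, mul_zero]) }
  map_one' := by
    ext γ
    show χ γ * θ ((1 : HahnSeries Γ F).coeff γ) = (1 : HahnSeries Γ F).coeff γ
    rw [HahnSeries.coeff_one]
    split_ifs with h
    · rw [h, h0, map_one, mul_one]
    · rw [map_zero, mul_zero]
  map_zero' := by
    ext γ
    show χ γ * θ (0 : F) = 0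
    rw [map_zero, mul_zero]
  map_add' := by
    intro x y
    ext γ
    show χ γ * θ ((x + y).coeff γ) = χ γ * θ (x.coeff γ) + χ γ * θ (y.coeff γ)
    rw [HahnSeries.coeff_add, map_add, mul_add]
  map_mul' := by
    intro x y
    ext γ
    rw [coeff_mul2 (s := x.support) (t := y.support) x.isPWO_support y.isPWO_support]
    · show χ γ * θ ((x * y).coeff γ) = _
      rw [HahnSeries.coeff_mul, map_sum, Finset.mul_sum]
      apply Finset.sum_congr rfl
      intro ij hij
      rw [Finset.mem_antidiagonal] at hij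
      show χ γ * θ (x.coeff ij.1 * y.coeff ij.2) = (χ ij.1 * θ (x.coeff ij.1)) * (χ ij.2 * θ (y.coeff ij.2))
      rw [← hij.2.2, hχ, map_mul]
      ring
    · intro δ hδ h
      apply hδ
      have h' : x.coeff δ = 0 := h
      show χ δ * θ (x.coeff δ) = 0
      rw [h', map_zero, mul_zero]
    · intro δ hδ h
      apply hδ
      have h' : y.coeff δ = 0 := h
      show χ δ * θ (y.coeff δ) = 0
      rw [h', map_zero, mul_zero]

theorem twist_coeff (χ : Γ → F) (h0 : χ 0 = 1) (hχ : ∀ a b, χ (a + b) = χ a * χ b) (θ : F →+* F)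
    (f : HahnSeries Γ F) (γ : Γ) : (twist χ h0 hχ θ f).coeff γ = χ γ * θ (f.coeff γ) := rfl

end Hahn

/-- The data used in the construction -/
structure Setup (Ω Γ F : Type) [LinearOrder Ω] [AddCommGroup Γ] [LinearOrder Γ]
    [IsOrderedAddMonoid Γ] [Field F] where
  c : Ω → Γ →+ ℤ
  al : Ω → Γ
  pi : Ω → Γ
  chi : Γ
  bot : Ω
  hbot : ∀ i, bot ≤ i
  hchi : chi = al bot + al bot
  c_al : ∀ s i, c s (al i) = if s = i then 1 else 0
  c_pi : ∀ s l, c s (pi l) = 0
  al_lt : ∀ i k, i < k → al i < al k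
  al_lt_chi : ∀ i, al i < chi
  pi_lt : ∀ l l', l < l' → pi l' < pi l
  O2 : ∀ l i k, l < i → i ≤ k → al k - al i < pi l
  O1 : ∀ (l : Ω) (γ : Γ) (S : Finset Ω), 0 ≤ γ → γ < pi l → (∀ s, s ∉ S → c s γ = 0) → l ∉ S →
    ∑ s ∈ S, (if l < s then c s γ else 0) = 0
  X : Ω → Ω → Ω → F
  θ : (Ω → Ω → Ω → ℤ) → F →+* F
  θ_X : ∀ w a b l, a < b → θ w (X a b l) = X a b l + ((w a b l : ℤ) : F)
  X_zero : ∀ a b l, ¬ a < b → X a b l = 0

namespace Setup

variable {Ω Γ F : Type} [LinearOrder Ω] [WellFoundedLT Ω] [AddCommGroup Γ] [LinearOrder Γ]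
    [IsOrderedAddMonoid Γ] [Field F] [CharZero F] (P : Setup Ω Γ F)

/-- annihilator of a finite set -/
def Ann (S : Finset Ω) (w : Ω → Ω → Ω → ℤ) : Prop :=
  (∀ a ∈ S, ∀ b ∈ S, ∀ d ∈ S, ∀ l, l < a → a < b → b < d → w a b l + w b d l - w a d l = 0) ∧
  (∀ a ∈ S, ∀ b ∈ S, ∀ l ∈ S, w a b l = 0)

theorem Ann_mono {S S' : Finset Ω} (h : S ⊆ S') {w : Ω → Ω → Ω → ℤ} (hw : Ann S' w) : Ann S w :=
  ⟨fun a ha b hb d hd l h1 h2 h3 => hw.1 a (h ha) b (h hb) d (h hd) l h1 h2 h3,
    fun a ha b hb l hl => hw.2 a (h ha) b (h hb) l (h hl)⟩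

/-- the coefficientwise automorphism -/
noncomputable def Tw (w : Ω → Ω → Ω → ℤ) : HahnSeries Γ F →+* HahnSeries Γ F :=
  twist (fun _ => 1) rfl (fun _ _ => (mul_one 1).symm) (P.θ w)

/-- the grading automorphism -/
noncomputable def Ts (s : Ω) : HahnSeries Γ F →+* HahnSeries Γ F :=
  twist (fun γ => (2 : F) ^ (P.c s γ)) (by simp) (fun a b => by
    rw [map_add, zpow_add₀ (two_ne_zero)]) (RingHom.id F)

/-- the subfields `K_S` -/
noncomputable def KS (S : Finset Ω) : Subfield (HahnSeries Γ F) where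
  carrier := {f | (∀ w, Ann S w → P.Tw w f = f) ∧ ∀ s, s ∉ S → P.Ts s f = f}
  mul_mem' := by
    rintro a b ⟨ha1, ha2⟩ ⟨hb1, hb2⟩
    exact ⟨fun w hw => by rw [map_mul, ha1 w hw, hb1 w hw], fun s hs => by rw [map_mul, ha2 s hs, hb2 s hs]⟩
  one_mem' := ⟨fun w _ => map_one _, fun s _ => map_one _⟩
  add_mem' := by
    rintro a b ⟨ha1, ha2⟩ ⟨hb1, hb2⟩
    exact ⟨fun w hw => by rw [map_add, ha1 w hw, hb1 w hw], fun s hs => by rw [map_add, ha2 s hs, hb2 s hs]⟩
  zero_mem' := ⟨fun w _ => map_zero _, fun s _ => map_zero _⟩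
  neg_mem' := by
    rintro a ⟨ha1, ha2⟩
    exact ⟨fun w hw => by rw [map_neg, ha1 w hw], fun s hs => by rw [map_neg, ha2 s hs]⟩
  inv_mem' := by
    rintro a ⟨ha1, ha2⟩
    exact ⟨fun w hw => by rw [map_inv₀, ha1 w hw], fun s hs => by rw [map_inv₀, ha2 s hs]⟩

theorem two_zpow_eq (n : ℤ) (h : (2 : F) ^ n = 1) : n = 0 := by
  have h1 : (((2 : ℚ) ^ n : ℚ) : F) = ((1 : ℚ) : F) := by
    push_cast
    exact h
  have h2 : (2 : ℚ) ^ n = 1 := Rat.cast_injective h1
  have h3 : (2 : ℚ) ^ n = (2 : ℚ) ^ (0 : ℤ) := by rw [h2, zpow_zero]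
  exact zpow_right_injective₀ (by norm_num) (by norm_num) h3

theorem mem_KS_iff (S : Finset Ω) (f : HahnSeries Γ F) :
    f ∈ P.KS S ↔ (∀ w, Ann S w → ∀ γ, P.θ w (f.coeff γ) = f.coeff γ) ∧
      ∀ s, s ∉ S → ∀ γ, f.coeff γ ≠ 0 → P.c s γ = 0 := by
  constructor
  · rintro ⟨h1, h2⟩
    refine ⟨fun w hw γ => ?_, fun s hs γ hγ => ?_⟩
    · have h3 := congrArg (fun g => HahnSeries.coeff g γ) (h1 w hw)
      have h4 : 1 * P.θ w (f.coeff γ) = f.coeff γ := h3
      rwa [one_mul] at h4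
    · have h3 := congrArg (fun g => HahnSeries.coeff g γ) (h2 s hs)
      have h4 : (2 : F) ^ (P.c s γ) * f.coeff γ = f.coeff γ := h3
      apply two_zpow_eq (F := F)
      exact mul_right_cancel₀ hγ (h4.trans (one_mul _).symm)
  · rintro ⟨h1, h2⟩
    refine ⟨fun w hw => ?_, fun s hs => ?_⟩
    · ext γ
      show 1 * P.θ w (f.coeff γ) = f.coeff γ
      rw [one_mul, h1 w hw]
    · ext γ
      show (2 : F) ^ (P.c s γ) * f.coeff γ = f.coeff γ
      by_cases h : f.coeff γ = 0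
      · rw [h, mul_zero]
      · rw [h2 s hs γ h, zpow_zero, one_mul]

theorem KS_mono {S S' : Finset Ω} (h : S ⊆ S') : P.KS S ≤ P.KS S' := by
  intro f hf
  rw [mem_KS_iff] at hf ⊢
  exact ⟨fun w hw γ => hf.1 w (Ann_mono h hw) γ, fun s hs γ hγ => hf.2 s (fun h' => hs (h h')) γ hγ⟩

/-- the field `K` -/
noncomputable def KK : Subfield (HahnSeries Γ F) where
  carrier := {f | ∃ S, f ∈ P.KS S}
  mul_mem' := by
    classical
    rintro a b ⟨S, ha⟩ ⟨S', hb⟩
    exact ⟨S ∪ S', mul_mem (P.KS_mono Finset.subset_union_left ha) (P.KS_mono Finset.subset_union_right hb)⟩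
  one_mem' := ⟨∅, one_mem _⟩
  add_mem' := by
    classical
    rintro a b ⟨S, ha⟩ ⟨S', hb⟩
    exact ⟨S ∪ S', add_mem (P.KS_mono Finset.subset_union_left ha) (P.KS_mono Finset.subset_union_right hb)⟩
  zero_mem' := ⟨∅, zero_mem _⟩
  neg_mem' := by
    rintro a ⟨S, ha⟩
    exact ⟨S, neg_mem ha⟩
  inv_mem' := by
    rintro a ⟨S, ha⟩
    exact ⟨S, inv_mem ha⟩

theorem mem_KK_iff (f : HahnSeries Γ F) : f ∈ P.KK ↔ ∃ S, f ∈ P.KS S := Iff.rfl

theorem KS_le_KK (S : Finset Ω) : P.KS S ≤ P.KK := fun _ hf => ⟨S, hf⟩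

variable (Γ F) in
/-- the valuation ring of the Hahn field -/
def Dh : Subring (HahnSeries Γ F) where
  carrier := {f | ∀ γ, γ < 0 → f.coeff γ = 0}
  mul_mem' := by
    intro a b ha hb γ hγ
    rw [HahnSeries.coeff_mul]
    apply Finset.sum_eq_zero
    intro ij hij
    rw [Finset.mem_antidiagonal] at hij
    rcases lt_or_ge ij.1 0 with h | h
    · rw [ha _ h, zero_mul]
    · rcases lt_or_ge ij.2 0 with h' | h'
      · rw [hb _ h', mul_zero]
      · exfalso
        have := add_nonneg h h'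
        rw [hij.2.2] at this
        exact absurd this (not_le.mpr hγ)
  one_mem' := by
    intro γ hγ
    rw [HahnSeries.coeff_one, if_neg hγ.ne]
  add_mem' := by
    intro a b ha hb γ hγ
    rw [HahnSeries.coeff_add, ha γ hγ, hb γ hγ, add_zero]
  zero_mem' := fun γ _ => rfl
  neg_mem' := by
    intro a ha γ hγ
    rw [HahnSeries.coeff_neg, ha γ hγ, neg_zero]

omit [CharZero F] in
theorem mem_Dh_iff (f : HahnSeries Γ F) : f ∈ Dh Γ F ↔ ∀ γ, γ < 0 → f.coeff γ = 0 := Iff.rfl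

/-- derivations -/
noncomputable def der (s : Ω) (f : HahnSeries Γ F) : HahnSeries Γ F :=
  { coeff := fun γ => ((P.c s γ : ℤ) : F) * f.coeff γ
    isPWO_support' := f.isPWO_support.mono (by
        intro γ hγ h
        apply hγ
        show ((P.c s γ : ℤ) : F) * f.coeff γ = 0
        have h' : f.coeff γ = 0 := h
        rw [h', mul_zero]) }

theorem der_coeff (s : Ω) (f : HahnSeries Γ F) (γ : Γ) : (P.der s f).coeff γ = ((P.c s γ : ℤ) : F) * f.coeff γ := rfl

theorem der_support (s : Ω) (f : HahnSeries Γ F) : (P.der s f).support ⊆ f.support := by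
  intro γ hγ h
  apply hγ
  show ((P.c s γ : ℤ) : F) * f.coeff γ = 0
  have h' : f.coeff γ = 0 := h
  rw [h', mul_zero]

theorem der_add (s : Ω) (f g : HahnSeries Γ F) : P.der s (f + g) = P.der s f + P.der s g := by
  ext γ
  rw [HahnSeries.coeff_add, der_coeff, der_coeff, der_coeff, HahnSeries.coeff_add, mul_add]

theorem der_zero (s : Ω) : P.der s (0 : HahnSeries Γ F) = 0 := by
  ext γ
  rw [der_coeff, HahnSeries.coeff_zero, mul_zero]

theorem der_neg (s : Ω) (f : HahnSeries Γ F) : P.der s (-f) = - P.der s f := by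
  ext γ
  rw [HahnSeries.coeff_neg, der_coeff, der_coeff, HahnSeries.coeff_neg, mul_neg]

theorem der_one (s : Ω) : P.der s (1 : HahnSeries Γ F) = 0 := by
  ext γ
  rw [der_coeff, HahnSeries.coeff_one, HahnSeries.coeff_zero]
  split_ifs with h
  · rw [h, map_zero, Int.cast_zero, zero_mul]
  · rw [mul_zero]

theorem der_mul (s : Ω) (f g : HahnSeries Γ F) : P.der s (f * g) = f * P.der s g + g * P.der s f := by
  ext γ
  rw [HahnSeries.coeff_add, der_coeff, mul_comm g,
    coeff_mul2 f.isPWO_support g.isPWO_support subset_rfl (P.der_support s g),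
    coeff_mul2 f.isPWO_support g.isPWO_support (P.der_support s f) subset_rfl,
    HahnSeries.coeff_mul, Finset.mul_sum, ← Finset.sum_add_distrib]
  apply Finset.sum_congr rfl
  intro ij hij
  rw [Finset.mem_antidiagonal] at hij
  rw [der_coeff, der_coeff, ← hij.2.2, map_add]
  push_cast
  ring

theorem der_KS {S : Finset Ω} {f : HahnSeries Γ F} (hf : f ∈ P.KS S) (s : Ω) : P.der s f ∈ P.KS S := by
  rw [mem_KS_iff] at hf ⊢
  refine ⟨fun w hw γ => ?_, fun t ht γ hγ => hf.2 t ht γ (right_ne_zero_of_mul hγ)⟩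
  rw [der_coeff, map_mul, hf.1 w hw, map_intCast]

theorem der_KS_zero {S : Finset Ω} {f : HahnSeries Γ F} (hf : f ∈ P.KS S) (s : Ω) (hs : s ∉ S) :
    P.der s f = 0 := by
  rw [mem_KS_iff] at hf
  ext γ
  rw [der_coeff, HahnSeries.coeff_zero]
  by_cases h : f.coeff γ = 0
  · rw [h, mul_zero]
  · rw [hf.2 s hs γ h, Int.cast_zero, zero_mul]

/-- exponents `p_l = - π_l` -/
noncomputable def pemb : Ω ↪o Γ := OrderEmbedding.ofStrictMono (fun l => - P.pi l) (fun _ _ h => neg_lt_neg (P.pi_lt _ _ h))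

theorem pemb_apply (l : Ω) : P.pemb l = - P.pi l := rfl

/-- the series `Σ φ(l) t^{p_l}` -/
noncomputable def HH (φ : Ω → F) : HahnSeries Γ F :=
  HahnSeries.embDomain P.pemb ⟨φ, Set.IsWF.isPWO (Set.IsWF.of_wellFoundedLT _)⟩

theorem HH_coeff (φ : Ω → F) (l : Ω) : (P.HH φ).coeff (- P.pi l) = φ l := by
  unfold HH
  rw [← pemb_apply, HahnSeries.embDomain_coeff]

theorem HH_coeff_ne (φ : Ω → F) (γ : Γ) (h : ∀ l, γ ≠ - P.pi l) : (P.HH φ).coeff γ = 0 := by
  unfold HH
  rw [HahnSeries.embDomain_of_notMem_range]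
  rintro ⟨l, hl⟩
  exact h l (hl.symm.trans (P.pemb_apply l))

theorem HH_cases (γ : Γ) : (∃ l, γ = - P.pi l) ∨ ∀ l, γ ≠ - P.pi l := by
  by_cases h : ∃ l, γ = - P.pi l
  · exact Or.inl h
  · right
    intro l hl
    exact h ⟨l, hl⟩

theorem HH_support (φ : Ω → F) : (P.HH φ).support ⊆ Set.range P.pemb := by
  intro γ hγ
  by_contra h
  apply hγ
  apply P.HH_coeff_ne
  intro l hl
  exact h ⟨l, hl.symm⟩

theorem range_pwo : (Set.range P.pemb).IsPWO := by
  rw [← Set.image_univ]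
  exact Set.IsPWO.image_of_monotone (Set.IsWF.isPWO (Set.IsWF.of_wellFoundedLT _)) P.pemb.monotone

theorem HH_add (φ ψ : Ω → F) : P.HH (fun l => φ l + ψ l) = P.HH φ + P.HH ψ := by
  ext γ
  rw [HahnSeries.coeff_add]
  rcases P.HH_cases γ with ⟨l, rfl⟩ | h
  · rw [HH_coeff, HH_coeff, HH_coeff]
  · rw [HH_coeff_ne _ _ _ h, HH_coeff_ne _ _ _ h, HH_coeff_ne _ _ _ h, add_zero]

theorem HH_sub (φ ψ : Ω → F) : P.HH (fun l => φ l - ψ l) = P.HH φ - P.HH ψ := by
  ext γ
  rw [HahnSeries.coeff_sub]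
  rcases P.HH_cases γ with ⟨l, rfl⟩ | h
  · rw [HH_coeff, HH_coeff, HH_coeff]
  · rw [HH_coeff_ne _ _ _ h, HH_coeff_ne _ _ _ h, HH_coeff_ne _ _ _ h, sub_zero]

theorem HH_mem_KS (S : Finset Ω) (φ : Ω → F) (h : ∀ w, Ann S w → ∀ l, P.θ w (φ l) = φ l) :
    P.HH φ ∈ P.KS S := by
  rw [mem_KS_iff]
  refine ⟨fun w hw γ => ?_, fun s hs γ hγ => ?_⟩
  · rcases P.HH_cases γ with ⟨l, rfl⟩ | h'
    · rw [HH_coeff, h w hw]
    · rw [HH_coeff_ne _ _ _ h', map_zero]
  · rcases P.HH_cases γ with ⟨l, rfl⟩ | h'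
    · rw [map_neg, P.c_pi, neg_zero]
    · exact absurd (P.HH_coeff_ne _ _ h') hγ

theorem X_fix {S : Finset Ω} {w : Ω → Ω → Ω → ℤ} (hw : Ann S w) {a b l : Ω} (ha : a ∈ S) (hb : b ∈ S)
    (hl : l ∈ S) : P.θ w (P.X a b l) = P.X a b l := by
  by_cases h : a < b
  · rw [P.θ_X w a b l h, hw.2 a ha b hb l hl, Int.cast_zero, add_zero]
  · rw [P.X_zero a b l h, map_zero]

theorem e_fix {S : Finset Ω} {w : Ω → Ω → Ω → ℤ} (hw : Ann S w) {a b d : Ω} (ha : a ∈ S) (hb : b ∈ S)
    (hd : d ∈ S) (hab : a ≤ b) (hbd : b ≤ d) {l : Ω} (hl : l < a) :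
    P.θ w (P.X a b l + P.X b d l - P.X a d l) = P.X a b l + P.X b d l - P.X a d l := by
  rcases eq_or_lt_of_le hab with h | h
  · subst h
    rw [P.X_zero a a l (lt_irrefl _)]
    simp
  rcases eq_or_lt_of_le hbd with h' | h'
  · subst h'
    rw [P.X_zero b b l (lt_irrefl _)]
    simp
  rw [map_sub, map_add, P.θ_X w a b l h, P.θ_X w b d l h', P.θ_X w a d l (h.trans h')]
  have h1 := hw.1 a ha b hb d hd l hl h h'
  have h2 : ((w a b l : ℤ) : F) + ((w b d l : ℤ) : F) - ((w a d l : ℤ) : F) = 0 := by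
    rw [← Int.cast_add, ← Int.cast_sub, h1, Int.cast_zero]
  linear_combination h2

/-- `g_{s,m}` -/
noncomputable def g (s m : Ω) : HahnSeries Γ F := P.HH (fun l => if l < s then P.X s m l else 0)

/-- local formula of the derivation -/
noncomputable def Del (S : Finset Ω) (m : Ω) (f : HahnSeries Γ F) : HahnSeries Γ F :=
  - ∑ s ∈ S, P.g s m * P.der s f

theorem Del_add (S : Finset Ω) (m : Ω) (f f' : HahnSeries Γ F) :
    P.Del S m (f + f') = P.Del S m f + P.Del S m f' := by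
  unfold Del
  rw [← neg_add, ← Finset.sum_add_distrib]
  congr 1
  apply Finset.sum_congr rfl
  intro s _
  rw [der_add, mul_add]

theorem Del_neg (S : Finset Ω) (m : Ω) (f : HahnSeries Γ F) :
    P.Del S m (-f) = - P.Del S m f := by
  unfold Del
  rw [neg_inj]
  rw [← Finset.sum_neg_distrib]
  apply Finset.sum_congr rfl
  intro s _
  rw [der_neg, mul_neg]

theorem Del_zero (S : Finset Ω) (m : Ω) : P.Del S m (0 : HahnSeries Γ F) = 0 := by
  unfold Del
  simp [der_zero]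

theorem Del_one (S : Finset Ω) (m : Ω) : P.Del S m (1 : HahnSeries Γ F) = 0 := by
  unfold Del
  simp [der_one]

theorem Del_mul (S : Finset Ω) (m : Ω) (f f' : HahnSeries Γ F) :
    P.Del S m (f * f') = f * P.Del S m f' + f' * P.Del S m f := by
  unfold Del
  rw [mul_neg, mul_neg, ← neg_add, Finset.mul_sum, Finset.mul_sum, ← Finset.sum_add_distrib]
  congr 1
  apply Finset.sum_congr rfl
  intro s _
  rw [der_mul]
  ring

theorem sum_mem_Dh (S : Finset Ω) (φ : Ω → F) (f : HahnSeries Γ F)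
    (hf : f ∈ P.KS S) (hfD : f ∈ Dh Γ F) :
    ∑ s ∈ S, P.HH (fun l => if l ∉ S ∧ l < s then φ l else 0) * P.der s f ∈ Dh Γ F := by
  classical
  intro γ hγ
  rw [HahnSeries.coeff_sum]
  have h1 : ∀ s ∈ S, (P.HH (fun l => if l ∉ S ∧ l < s then φ l else 0) * P.der s f).coeff γ =
      ∑ ij ∈ Finset.antidiagonal P.range_pwo f.isPWO_support γ,
        (P.HH (fun l => if l ∉ S ∧ l < s then φ l else 0)).coeff ij.1 * (P.der s f).coeff ij.2 := fun s _ =>
    coeff_mul2 P.range_pwo f.isPWO_support (P.HH_support _) (P.der_support s f)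
  rw [Finset.sum_congr rfl h1, Finset.sum_comm]
  apply Finset.sum_eq_zero
  rintro ⟨u, v⟩ hij
  rw [Finset.mem_antidiagonal] at hij
  obtain ⟨⟨l, rfl⟩, hv, huv⟩ := hij
  simp only [pemb_apply, HH_coeff, der_coeff] at hv huv ⊢
  by_cases hl : l ∈ S
  · apply Finset.sum_eq_zero
    intro s _
    rw [if_neg (fun h => h.1 hl), zero_mul]
  have hv0 : 0 ≤ v := by
    by_contra hcon
    exact hv (hfD v (not_le.mp hcon))
  have hvl : v < P.pi l := by
    have h2 : - P.pi l + v < 0 := by rw [huv]; exact hγ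
    rw [neg_add_eq_sub] at h2
    exact sub_neg.mp h2
  have hc : ∀ s, s ∉ S → P.c s v = 0 := fun s hs => ((P.mem_KS_iff S f).mp hf).2 s hs v hv
  have hO := P.O1 l v S hv0 hvl hc hl
  have h3 : ∀ s ∈ S, (if l ∉ S ∧ l < s then φ l else 0) * (((P.c s v : ℤ) : F) * f.coeff v) =
      φ l * f.coeff v * (((if l < s then P.c s v else 0 : ℤ)) : F) := by
    intro s _
    by_cases h : l < s
    · rw [if_pos ⟨hl, h⟩, if_pos h]
      ring
    · rw [if_neg (fun h' => h h'.2), if_neg h]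
      simp
  rw [Finset.sum_congr rfl h3, ← Finset.mul_sum, ← Int.cast_sum, hO, Int.cast_zero, mul_zero]

theorem glue {S S' : Finset Ω} {m m' : Ω} (hSS : S ⊆ S') (hm : m ∈ S) (hmS : ∀ s ∈ S, s ≤ m)
    (hm' : m' ∈ S') (hmm : m ≤ m') {f : HahnSeries Γ F} (hf : f ∈ P.KS S) (hfD : f ∈ Dh Γ F) :
    ∃ κ ∈ P.KK, P.Del S' m' f - P.Del S m f - κ ∈ Dh Γ F := by
  classical
  refine ⟨∑ s ∈ S, (P.HH (fun l => if l < s then P.X s m l + P.X m m' l - P.X s m' l else 0) * P.der s f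
    - P.HH (fun l => if l ∈ S ∧ l < s then P.X m m' l else 0) * P.der s f), ?_, ?_⟩
  · apply P.KS_le_KK S'
    apply sum_mem
    intro s hs
    apply sub_mem
    · apply mul_mem
      · apply P.HH_mem_KS
        intro w hw l
        split_ifs with h
        · exact P.e_fix hw (hSS hs) (hSS hm) hm' (hmS s hs) hmm h
        · exact map_zero _
      · exact P.KS_mono hSS (P.der_KS hf s)
    · apply mul_mem
      · apply P.HH_mem_KS
        intro w hw l
        split_ifs with h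
        · exact P.X_fix hw (hSS hm) hm' (hSS h.1)
        · exact map_zero _
      · exact P.KS_mono hSS (P.der_KS hf s)
  · have h1 : P.Del S' m' f = - ∑ s ∈ S, P.g s m' * P.der s f := by
      unfold Del
      rw [← Finset.sum_subset hSS]
      intro s _ hs
      rw [P.der_KS_zero hf s hs, mul_zero]
    have h2 : P.Del S' m' f - P.Del S m f - ∑ s ∈ S, (P.HH (fun l => if l < s then P.X s m l + P.X m m' l - P.X s m' l else 0) * P.der s f
    - P.HH (fun l => if l ∈ S ∧ l < s then P.X m m' l else 0) * P.der s f)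
      = - ∑ s ∈ S, P.HH (fun l => if l ∉ S ∧ l < s then P.X m m' l else 0) * P.der s f := by
      rw [h1]
      unfold Del
      rw [← Finset.sum_neg_distrib, ← Finset.sum_neg_distrib, ← Finset.sum_sub_distrib,
        ← Finset.sum_sub_distrib, ← Finset.sum_neg_distrib]
      apply Finset.sum_congr rfl
      intro s _
      have h3 : P.HH (fun l => if l ∉ S ∧ l < s then P.X m m' l else 0) =
          P.g s m' - P.g s m + P.HH (fun l => if l < s then P.X s m l + P.X m m' l - P.X s m' l else 0)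
            - P.HH (fun l => if l ∈ S ∧ l < s then P.X m m' l else 0) := by
        unfold g
        rw [← HH_sub, ← HH_add, ← HH_sub]
        congr 1
        funext l
        by_cases hl : l < s
        · by_cases hlS : l ∈ S
          · rw [if_neg (fun h => h.1 hlS), if_pos hl, if_pos hl, if_pos hl, if_pos ⟨hlS, hl⟩]
            ring
          · rw [if_pos ⟨hlS, hl⟩, if_pos hl, if_pos hl, if_pos hl, if_neg (fun h => hlS h.1)]
            ring
        · rw [if_neg (fun h => hl h.2), if_neg hl, if_neg hl, if_neg hl, if_neg (fun h => hl h.2)]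
          ring
      rw [h3]
      ring
    rw [h2]
    exact neg_mem (P.sum_mem_Dh S (fun l => P.X m m' l) f hf hfD)

end Setup

end EH





namespace EH

/-- A ring that is an extension of a valuation ring by `K / O`. -/
structure RD {K : Type} [Field K] {Γ₀ : Type} [LinearOrderedCommGroupWithZero Γ₀] (v : Valuation K Γ₀)
    (R : Type) [CommRing R] where
  f : R →+* K
  U : K →+ R
  hf1 : ∀ r, v (f r) ≤ 1
  hf2 : ∀ a, v a ≤ 1 → ∃ r, f r = a
  hf3 : ∀ r, f r = 0 → ∃ κ, r = U κ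
  hfU : ∀ κ, f (U κ) = 0
  hU : ∀ κ, U κ = 0 ↔ v κ ≤ 1
  hmul : ∀ r κ, r * U κ = U (f r * κ)

namespace RD

variable {K : Type} [Field K] {Γ₀ : Type} [LinearOrderedCommGroupWithZero Γ₀] {v : Valuation K Γ₀}
    {R : Type} [CommRing R] (D : RD v R)

include D in
/-- the ring is a chain ring -/
theorem dvd_total (x y : R) : x ∣ y ∨ y ∣ x := by
  -- key: if `f x ≠ 0`, `v (f y) ≤ v (f x)` then `x ∣ y`
  have key : ∀ x y : R, D.f x ≠ 0 → v (D.f y) ≤ v (D.f x) → x ∣ y := by
    intro x y hx hxy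
    have hvx : v (D.f x) ≠ 0 := (Valuation.ne_zero_iff v).mpr hx
    obtain ⟨r, hr⟩ := D.hf2 (D.f y / D.f x) (by
      rw [map_div₀]
      exact (div_le_one₀ (zero_lt_iff.mpr hvx)).mpr hxy)
    obtain ⟨κ, hκ⟩ := D.hf3 (y - x * r) (by
      rw [map_sub, map_mul, hr, mul_div_cancel₀ _ hx, sub_self])
    refine ⟨r + D.U (κ / D.f x), ?_⟩
    rw [mul_add, D.hmul, mul_div_cancel₀ _ hx, ← hκ]
    ring
  have key2 : ∀ x y : K, v y ≤ v x → D.U x ∣ D.U y := by
    intro x y hxy
    by_cases hx : x = 0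
    · rw [hx, map_zero, le_zero_iff, Valuation.zero_iff] at hxy
      rw [hxy, hx]
    have hvx : v x ≠ 0 := (Valuation.ne_zero_iff v).mpr hx
    obtain ⟨r, hr⟩ := D.hf2 (y / x) (by
      rw [map_div₀]
      exact (div_le_one₀ (zero_lt_iff.mpr hvx)).mpr hxy)
    refine ⟨r, ?_⟩
    rw [mul_comm, D.hmul, hr, div_mul_cancel₀ _ hx]
  by_cases hx : D.f x = 0
  · by_cases hy : D.f y = 0
    · obtain ⟨a, rfl⟩ := D.hf3 x hx
      obtain ⟨b, rfl⟩ := D.hf3 y hy
      rcases le_total (v a) (v b) with h | h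
      · exact Or.inr (key2 _ _ h)
      · exact Or.inl (key2 _ _ h)
    · right
      apply key y x hy
      rw [hx, map_zero]
      exact zero_le
  · by_cases hy : D.f y = 0
    · left
      apply key x y hx
      rw [hy, map_zero]
      exact zero_le
    · rcases le_total (v (D.f x)) (v (D.f y)) with h | h
      · exact Or.inr (key y x hy h)
      · exact Or.inl (key x y hx h)

include D in
theorem chain (I J : Ideal R) : I ≤ J ∨ J ≤ I := by
  by_contra hcon
  push Not at hcon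
  obtain ⟨h1, h2⟩ := hcon
  obtain ⟨x, hx, hx'⟩ := SetLike.not_le_iff_exists.mp h1
  obtain ⟨y, hy, hy'⟩ := SetLike.not_le_iff_exists.mp h2
  rcases D.dvd_total x y with h | h
  · exact hy' (I.mem_of_dvd h hx)
  · exact hx' (J.mem_of_dvd h hy)

/-- in an injective module, annihilator containment gives divisibility -/
theorem inj_div {N : Type} [AddCommGroup N] [Module R N] (hN : Module.Injective R N) (u : R) (x : N)
    (h : ∀ r : R, r * u = 0 → r • x = 0) : ∃ y : N, u • y = x := by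
  let φ : R →ₗ[R] R := LinearMap.toSpanSingleton R R u
  let ψ : R →ₗ[R] N := LinearMap.toSpanSingleton R N x
  have hle : LinearMap.ker φ ≤ LinearMap.ker ψ := by
    intro r hr
    rw [LinearMap.mem_ker] at hr ⊢
    exact h r hr
  obtain ⟨q, hq⟩ := hN.out (LinearMap.ker φ).subtype (Submodule.injective_subtype _) 0
  obtain ⟨e, he⟩ := hN.out ((LinearMap.ker φ).liftQ φ le_rfl) (by
    rw [← LinearMap.ker_eq_bot, Submodule.ker_liftQ_eq_bot _ _ _ le_rfl]) ((LinearMap.ker φ).liftQ ψ hle)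
  refine ⟨e 1, ?_⟩
  have h1 := he (Submodule.Quotient.mk 1)
  rw [Submodule.liftQ_apply, Submodule.liftQ_apply] at h1
  have h2 : φ 1 = u := by
    show (1 : R) • u = u
    exact one_smul _ _
  have h3 : ψ 1 = x := by
    show (1 : R) • x = x
    exact one_smul _ _
  rw [h2, h3] at h1
  rw [← h1, ← map_smul, smul_eq_mul, mul_one]

theorem main {Ω : Type} [LinearOrder Ω] (bot : Ω) (hbot : ∀ i, bot ≤ i)
    (t : Ω → K) (ht0 : ∀ i, t i ≠ 0) (htlt : ∀ i k, i < k → v (t k) < v (t i)) (T : K) (hT0 : T ≠ 0)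
    {N : Type} [AddCommGroup N] [Module R N] (hN : Module.Injective R N) (x0 : N)
    (hx0 : ∀ r : R, r • x0 = 0 ↔ ∃ i, v (D.f r * t i) ≤ v T)
    (hess : ∀ y : N, y ≠ 0 → ∃ r s : R, r • y = s • x0 ∧ s • x0 ≠ 0)
    {M : Type} [AddCommGroup M] [Module R M] (hM : ∀ A B : Submodule R M, A ≤ B ∨ B ≤ A)
    (i : M →ₗ[R] N) (hinj : Function.Injective i)
    (hpure : ∀ (r : R) (m : M) (n : N), i m = r • n → ∃ m' : M, m = r • m') (hM0 : ∃ m : M, m ≠ 0) :
    ∃ r : Ω → Ω → R, (∀ i j, i < j → D.f (r i j) = t j / t i) ∧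
      ∀ i j k, i < j → j < k → ∃ κ, r i j * r j k - r i k = D.U κ ∧ ∃ l, v (κ * t l) ≤ v (t k) := by
  obtain ⟨m0, hm0⟩ := hM0
  obtain ⟨r0, s, hrs, hs⟩ := hess (i m0) (fun h => hm0 (hinj (h.trans (map_zero i).symm)))
  set x : M := r0 • m0 with hx
  have hix : i x = s • x0 := by rw [hx, map_smul, hrs]
  have hxne : x ≠ 0 := by
    intro h
    rw [h, map_zero] at hix
    exact hs hix.symm
  have hvT : v T ≠ 0 := (Valuation.ne_zero_iff v).mpr hT0
  have hvt : ∀ i, v (t i) ≠ 0 := fun i => (Valuation.ne_zero_iff v).mpr (ht0 i)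
  have hsne : D.f s ≠ 0 := by
    intro h
    apply hs
    rw [hx0]
    refine ⟨bot, ?_⟩
    rw [h, zero_mul, map_zero]
    exact zero_le
  set z : K := D.f s / T with hz
  have hzne : z ≠ 0 := div_ne_zero hsne hT0
  have hvz : v z ≠ 0 := (Valuation.ne_zero_iff v).mpr hzne
  have hzT : z * T = D.f s := div_mul_cancel₀ _ hT0
  -- annihilator of x
  have hann : ∀ r : R, r • x = 0 ↔ ∃ i, v (D.f r * z * t i) ≤ 1 := by
    intro r
    have h1 : r • x = 0 ↔ r • i x = 0 := by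
      rw [← map_smul]
      constructor
      · intro h; rw [h, map_zero]
      · intro h; exact hinj (h.trans (map_zero i).symm)
    rw [h1, hix, ← mul_smul, hx0]
    apply exists_congr
    intro j
    have : D.f (r * s) * t j = (D.f r * z * t j) * T := by
      rw [map_mul D.f, ← hzT]
      ring
    rw [this, map_mul v (D.f r * z * t j) T]
    constructor
    · intro h
      have h' : v (D.f r * z * t j) * v T ≤ 1 * v T := by rwa [one_mul]
      exact le_of_mul_le_mul_right h' (zero_lt_iff.mpr hvT)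
    · intro h
      calc v (D.f r * z * t j) * v T ≤ 1 * v T := mul_le_mul_left h _
        _ = v T := one_mul _
  -- elements y'
  have hy' : ∀ j, ∃ y : M, D.U (z * t j) • y = x := by
    intro j
    obtain ⟨n, hn⟩ := inj_div hN (D.U (z * t j)) (i x) (by
      intro r hr
      rw [D.hmul, D.hU] at hr
      have h1 : r • x = 0 := (hann r).mpr ⟨j, by rw [mul_assoc]; exact hr⟩
      rw [← map_smul, h1, map_zero])
    obtain ⟨m', hm'⟩ := hpure _ _ _ hn.symm
    exact ⟨m', hm'.symm⟩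
  choose y' hy' using hy'
  -- K1
  have K1 : ∀ j κ, D.U κ • y' j = 0 → v κ < v (z * t j) := by
    intro j κ hκ
    by_contra hcon
    rw [not_lt] at hcon
    have hzt : v (z * t j) ≠ 0 := (Valuation.ne_zero_iff v).mpr (mul_ne_zero hzne (ht0 j))
    have hκ0 : v κ ≠ 0 := fun h => hzt (le_zero_iff.mp (h ▸ hcon))
    have hκ1 : κ ≠ 0 := (Valuation.ne_zero_iff v).mp hκ0
    obtain ⟨c, hc⟩ := D.hf2 (z * t j / κ) (by
      rw [map_div₀]
      exact (div_le_one₀ (zero_lt_iff.mpr hκ0)).mpr hcon)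
    apply hxne
    rw [← hy' j, ← div_mul_cancel₀ (z * t j) hκ1, ← hc, ← D.hmul, mul_smul, hκ, smul_zero]
  -- comparisons
  have hcomp : ∀ a b : M, (∃ r : R, a = r • b) ∨ ∃ r : R, b = r • a := by
    intro a b
    rcases hM (Submodule.span R {a}) (Submodule.span R {b}) with h | h
    · left
      have h1 : a ∈ Submodule.span R {b} := h (Submodule.mem_span_singleton_self a)
      obtain ⟨r, hr⟩ := Submodule.mem_span_singleton.mp h1
      exact ⟨r, hr.symm⟩
    · right
      have h1 : b ∈ Submodule.span R {a} := h (Submodule.mem_span_singleton_self b)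
      obtain ⟨r, hr⟩ := Submodule.mem_span_singleton.mp h1
      exact ⟨r, hr.symm⟩
  have hUs : ∀ (κ : K) (r : R) (y : M), D.U κ • r • y = D.U (κ * D.f r) • y := by
    intro κ r y
    rw [← mul_smul, mul_comm, D.hmul, mul_comm (D.f r)]
  -- y'_⊥ is a multiple of y'_j
  have hbotj : ∀ j, ∃ r : R, y' bot = r • y' j := by
    intro j
    rcases eq_or_lt_of_le (hbot j) with h | h
    · subst h
      exact ⟨1, (one_smul _ _).symm⟩
    rcases hcomp (y' bot) (y' j) with h' | ⟨r, hr⟩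
    · exact h'
    · exfalso
      have h1 : D.U (z * t j * D.f r - z * t bot) • y' bot = 0 := by
        rw [map_sub, sub_smul, ← hUs, ← hr, hy', hy', sub_self]
      have h2 := K1 _ _ h1
      have h3 : v (z * t j * D.f r) < v (z * t bot) := by
        rw [map_mul, map_mul, map_mul]
        calc v z * v (t j) * v (D.f r) ≤ v z * v (t j) * 1 := mul_le_mul_right (D.hf1 r) _
          _ = v z * v (t j) := mul_one _
          _ < v z * v (t bot) := (mul_lt_mul_iff_right₀ (zero_lt_iff.mpr hvz)).mpr (htlt _ _ h)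
      have h4 := Valuation.map_sub_eq_of_lt_right v h3
      rw [h4] at h2
      exact lt_irrefl _ h2
  -- normalised elements
  have hnorm : ∀ j, ∃ (y : M) (η : R), v (D.f η) = 1 ∧ y = η • y' j ∧
      ∀ κ, D.U κ • y = D.U (κ * t bot / t j) • y' bot := by
    intro j
    obtain ⟨r, hr⟩ := hbotj j
    have h1 : D.U (z * t bot * D.f r - z * t j) • y' j = 0 := by
      rw [map_sub, sub_smul, ← hUs, ← hr, hy', hy', sub_self]
    have h2 := K1 _ _ h1
    have h3 : v (z * t bot * D.f r) = v (z * t j) := by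
      have h4 := Valuation.map_add_eq_of_lt_left v h2
      rw [add_sub_cancel] at h4
      exact h4
    have h5 : v (D.f r * t bot / t j) = 1 := by
      rw [map_mul, map_mul, map_mul] at h3
      rw [map_div₀, map_mul, div_eq_one_iff_eq (hvt j)]
      have h6 : v z * (v (D.f r) * v (t bot)) = v z * v (t j) := by
        rw [← h3, mul_comm (v (D.f r)), mul_assoc]
      exact mul_left_cancel₀ hvz h6
    obtain ⟨η, hη⟩ := D.hf2 (D.f r * t bot / t j) h5.le
    refine ⟨η • y' j, η, by rw [hη, h5], rfl, ?_⟩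
    intro κ
    rw [hUs, hr, hUs, hη]
    congr 2
    ring
  choose y η hη hyη hyU using hnorm
  -- comparison of normalised elements
  have hcmp : ∀ a b, ∀ r : R, y a = r • y b → D.f r = t b / t a := by
    intro a b r hr
    by_contra hne
    have h1 : ∀ κ, D.U (κ * (t bot * (1 / t a - D.f r / t b))) • y' bot = 0 := by
      intro κ
      have h2 := hyU a κ
      rw [hr, hUs, hyU b] at h2
      have h3 : κ * (t bot * (1 / t a - D.f r / t b)) = κ * t bot / t a - κ * D.f r * t bot / t b := by ring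
      rw [h3, map_sub, sub_smul, h2, sub_self]
    have h4 : t bot * (1 / t a - D.f r / t b) ≠ 0 := by
      apply mul_ne_zero (ht0 _)
      rw [sub_ne_zero]
      intro h5
      apply hne
      have h6 := ht0 a
      have h7 := ht0 b
      field_simp at h5 ⊢
      linear_combination - h5
    have h5 := h1 (z * t bot / (t bot * (1 / t a - D.f r / t b)))
    rw [div_mul_cancel₀ _ h4, hy'] at h5
    exact hxne h5
  have hr : ∀ i j, ∃ r : R, i < j → (y i = r • y j ∧ D.f r = t j / t i) := by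
    intro i j
    by_cases hij : i < j
    · rcases hcomp (y i) (y j) with ⟨r, hr⟩ | ⟨r, hr⟩
      · exact ⟨r, fun _ => ⟨hr, hcmp _ _ _ hr⟩⟩
      · exfalso
        have h1 := hcmp _ _ _ hr
        have h2 := D.hf1 r
        rw [h1, map_div₀, div_le_one₀ (zero_lt_iff.mpr (hvt j))] at h2
        exact absurd h2 (not_le.mpr (htlt _ _ hij))
    · exact ⟨0, fun h => absurd h hij⟩
  choose r hr using hr
  refine ⟨r, fun i j hij => (hr i j hij).2, ?_⟩
  intro i j k hij hjk
  have hik := hij.trans hjk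
  obtain ⟨κ, hκ⟩ := D.hf3 (r i j * r j k - r i k) (by
    rw [map_sub, map_mul, (hr i j hij).2, (hr j k hjk).2, (hr i k hik).2]
    have h1 := ht0 i
    have h2 := ht0 j
    have h3 := ht0 k
    field_simp
    ring)
  refine ⟨κ, hκ, ?_⟩
  have h0 : D.U κ • y k = 0 := by
    rw [← hκ, sub_smul, mul_smul, ← (hr j k hjk).1, ← (hr i j hij).1, ← (hr i k hik).1, sub_self]
  rw [hyη k, hUs] at h0
  have h1 := K1 _ _ h0
  have hzt : z * t k ≠ 0 := mul_ne_zero hzne (ht0 k)
  have hvzt : v (z * t k) ≠ 0 := (Valuation.ne_zero_iff v).mpr hzt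
  obtain ⟨ra, hra⟩ := D.hf2 (κ * D.f (η k) / (z * t k)) (by
    rw [map_div₀]
    exact (div_le_one₀ (zero_lt_iff.mpr hvzt)).mpr h1.le)
  have h2 : ra • x = 0 := by
    rw [← hy' k, ← mul_smul, D.hmul, hra, div_mul_cancel₀ _ hzt, h0]
  obtain ⟨l, hl⟩ := (hann ra).mp h2
  refine ⟨l, ?_⟩
  rw [hra] at hl
  have h3 : κ * D.f (η k) / (z * t k) * z * t l = (κ * t l) * D.f (η k) / t k := by
    have h6 := ht0 k
    field_simp
  rw [h3, map_div₀, map_mul v (κ * t l), hη, mul_one, div_le_one₀ (zero_lt_iff.mpr (hvt k))] at hl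
  exact hl

end RD

end EH

namespace EH
namespace Setup

variable {Ω Γ F : Type} [LinearOrder Ω] [WellFoundedLT Ω] [AddCommGroup Γ] [LinearOrder Γ]
    [IsOrderedAddMonoid Γ] [Field F] [CharZero F] (P : Setup Ω Γ F)

/-- `K + D^` -/
noncomputable def KD : AddSubgroup (HahnSeries Γ F) where
  carrier := {b | ∃ κ ∈ P.KK, b - κ ∈ Dh Γ F}
  add_mem' := by
    rintro a b ⟨κ, hκ, h⟩ ⟨κ', hκ', h'⟩
    refine ⟨κ + κ', add_mem hκ hκ', ?_⟩
    have : a + b - (κ + κ') = (a - κ) + (b - κ') := by ring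
    rw [this]
    exact add_mem h h'
  zero_mem' := ⟨0, zero_mem _, by rw [sub_zero]; exact zero_mem _⟩
  neg_mem' := by
    rintro a ⟨κ, hκ, h⟩
    refine ⟨-κ, neg_mem hκ, ?_⟩
    have : -a - -κ = -(a - κ) := by ring
    rw [this]
    exact neg_mem h

theorem mem_KD_iff (b : HahnSeries Γ F) : b ∈ P.KD ↔ ∃ κ ∈ P.KK, b - κ ∈ Dh Γ F := Iff.rfl

theorem KK_KD {b : HahnSeries Γ F} (h : b ∈ P.KK) : b ∈ P.KD :=
  ⟨b, h, by rw [sub_self]; exact zero_mem _⟩

theorem KD_mul {a b : HahnSeries Γ F} (ha : a ∈ P.KK) (haD : a ∈ Dh Γ F) (hb : b ∈ P.KD) : a * b ∈ P.KD := by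
  obtain ⟨κ, hκ, h⟩ := hb
  refine ⟨a * κ, mul_mem ha hκ, ?_⟩
  rw [← mul_sub]
  exact mul_mem haD h

/-- admissible pairs -/
def Adm (S : Finset Ω) (m : Ω) : Prop := m ∈ S ∧ ∀ s ∈ S, s ≤ m

theorem Adm_union {S S' : Finset Ω} {m m' : Ω} (h : Adm S m) (h' : Adm S' m') : Adm (S ∪ S') (max m m') := by
  constructor
  · rcases max_choice m m' with h1 | h1
    · rw [h1]; exact Finset.mem_union_left _ h.1
    · rw [h1]; exact Finset.mem_union_right _ h'.1
  · intro s hs
    rcases Finset.mem_union.mp hs with h1 | h1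
    · exact le_max_of_le_left (h.2 s h1)
    · exact le_max_of_le_right (h'.2 s h1)

/-- the pairs in the ring -/
def Good (a b : HahnSeries Γ F) : Prop := ∃ S m, Adm S m ∧ a ∈ P.KS S ∧ b - P.Del S m a ∈ P.KD

theorem Good_up {a b : HahnSeries Γ F} {S S' : Finset Ω} {m m' : Ω} (h : Adm S m) (h' : Adm S' m')
    (hSS : S ⊆ S') (ha : a ∈ P.KS S) (haD : a ∈ Dh Γ F) :
    b - P.Del S m a ∈ P.KD ↔ b - P.Del S' m' a ∈ P.KD := by
  have h1 : P.Del S' m' a - P.Del S m a ∈ P.KD :=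
    P.glue hSS h.1 h.2 h'.1 (h'.2 m (hSS h.1)) ha haD
  constructor
  · intro h2
    have : b - P.Del S' m' a = (b - P.Del S m a) - (P.Del S' m' a - P.Del S m a) := by ring
    rw [this]
    exact sub_mem h2 h1
  · intro h2
    have : b - P.Del S m a = (b - P.Del S' m' a) + (P.Del S' m' a - P.Del S m a) := by ring
    rw [this]
    exact add_mem h2 h1

theorem Good_iff {a b : HahnSeries Γ F} {S : Finset Ω} {m : Ω} (h : Adm S m) (ha : a ∈ P.KS S)
    (haD : a ∈ Dh Γ F) : P.Good a b ↔ b - P.Del S m a ∈ P.KD := by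
  constructor
  · rintro ⟨S', m', h', ha', hb'⟩
    have h1 := Adm_union h h'
    rw [P.Good_up h' h1 Finset.subset_union_right ha' haD] at hb'
    rw [P.Good_up h h1 Finset.subset_union_left ha haD]
    exact hb'
  · intro h1
    exact ⟨S, m, h, ha, h1⟩

theorem exists_adm (a b : HahnSeries Γ F) (ha : a ∈ P.KK) (hb : b ∈ P.KK) :
    ∃ S m, Adm S m ∧ a ∈ P.KS S ∧ b ∈ P.KS S := by
  obtain ⟨S, hS⟩ := ha
  obtain ⟨S', hS'⟩ := hb
  have hne : (insert P.bot (S ∪ S')).Nonempty := ⟨P.bot, Finset.mem_insert_self _ _⟩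
  refine ⟨insert P.bot (S ∪ S'), (insert P.bot (S ∪ S')).max' hne, ⟨Finset.max'_mem _ _, fun s hs => Finset.le_max' _ _ hs⟩, ?_, ?_⟩
  · exact P.KS_mono (Finset.subset_union_left.trans (Finset.subset_insert _ _)) hS
  · exact P.KS_mono (Finset.subset_union_right.trans (Finset.subset_insert _ _)) hS'

theorem Good_KK {a b : HahnSeries Γ F} (h : P.Good a b) : a ∈ P.KK := by
  obtain ⟨S, m, _, ha, _⟩ := h
  exact P.KS_le_KK S ha

/-- the subring of dual numbers -/
noncomputable def Rt : Subring (TrivSqZeroExt (HahnSeries Γ F) (HahnSeries Γ F)) where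
  carrier := {x | x.fst ∈ Dh Γ F ∧ P.Good x.fst x.snd}
  mul_mem' := by
    rintro x y ⟨hx, hx'⟩ ⟨hy, hy'⟩
    have hxy : (x * y).fst = x.fst * y.fst := rfl
    have hxy2 : (x * y).snd = x.fst * y.snd + y.fst * x.snd := by
      rw [TrivSqZeroExt.snd_mul]
      simp [mul_comm]
    refine ⟨?_, ?_⟩
    · rw [hxy]
      exact mul_mem hx hy
    · obtain ⟨S, m, hA, hxS, hyS⟩ := P.exists_adm x.fst y.fst (P.Good_KK hx') (P.Good_KK hy')
      rw [P.Good_iff hA hxS hx] at hx'
      rw [P.Good_iff hA hyS hy] at hy'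
      rw [hxy, hxy2]
      rw [P.Good_iff hA (mul_mem hxS hyS) (mul_mem hx hy), Del_mul]
      have : x.fst * y.snd + y.fst * x.snd - (x.fst * P.Del S m y.fst + y.fst * P.Del S m x.fst)
        = x.fst * (y.snd - P.Del S m y.fst) + y.fst * (x.snd - P.Del S m x.fst) := by ring
      rw [this]
      exact add_mem (P.KD_mul (P.KS_le_KK S hxS) hx hy') (P.KD_mul (P.KS_le_KK S hyS) hy hx')
  one_mem' := by
    refine ⟨?_, ?_⟩
    · exact one_mem (Dh Γ F)
    · refine ⟨{P.bot}, P.bot, ⟨Finset.mem_singleton_self _, fun s hs => (Finset.mem_singleton.mp hs).le⟩, one_mem (P.KS _), ?_⟩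
      show (1 : TrivSqZeroExt (HahnSeries Γ F) (HahnSeries Γ F)).snd - P.Del _ _ (1 : TrivSqZeroExt (HahnSeries Γ F) (HahnSeries Γ F)).fst ∈ P.KD
      rw [TrivSqZeroExt.snd_one, TrivSqZeroExt.fst_one, Del_one, sub_zero]
      exact zero_mem _
  add_mem' := by
    rintro x y ⟨hx, hx'⟩ ⟨hy, hy'⟩
    refine ⟨add_mem hx hy, ?_⟩
    obtain ⟨S, m, hA, hxS, hyS⟩ := P.exists_adm x.fst y.fst (P.Good_KK hx') (P.Good_KK hy')
    rw [P.Good_iff hA hxS hx] at hx'
    rw [P.Good_iff hA hyS hy] at hy'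
    rw [TrivSqZeroExt.fst_add, TrivSqZeroExt.snd_add]
    rw [P.Good_iff hA (add_mem hxS hyS) (add_mem hx hy), Del_add]
    have : x.snd + y.snd - (P.Del S m x.fst + P.Del S m y.fst) = (x.snd - P.Del S m x.fst) + (y.snd - P.Del S m y.fst) := by ring
    rw [this]
    exact add_mem hx' hy'
  zero_mem' := by
    refine ⟨zero_mem (Dh Γ F), ?_⟩
    refine ⟨{P.bot}, P.bot, ⟨Finset.mem_singleton_self _, fun s hs => (Finset.mem_singleton.mp hs).le⟩, zero_mem (P.KS _), ?_⟩
    rw [TrivSqZeroExt.snd_zero, TrivSqZeroExt.fst_zero, Del_zero, sub_zero]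
    exact zero_mem _
  neg_mem' := by
    rintro x ⟨hx, hx'⟩
    refine ⟨neg_mem hx, ?_⟩
    obtain ⟨S, m, hA, hxS, hxm⟩ := hx'
    refine ⟨S, m, hA, neg_mem hxS, ?_⟩
    rw [TrivSqZeroExt.fst_neg, TrivSqZeroExt.snd_neg, Del_neg]
    have : -x.snd - -P.Del S m x.fst = -(x.snd - P.Del S m x.fst) := by ring
    rw [this]
    exact neg_mem hxm

theorem mem_Rt_iff (x : TrivSqZeroExt (HahnSeries Γ F) (HahnSeries Γ F)) :
    x ∈ P.Rt ↔ x.fst ∈ Dh Γ F ∧ P.Good x.fst x.snd := Iff.rfl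

theorem Good_zero (b : HahnSeries Γ F) : P.Good 0 b ↔ b ∈ P.KD := by
  have hA : Adm {P.bot} P.bot := ⟨Finset.mem_singleton_self _, fun s hs => (Finset.mem_singleton.mp hs).le⟩
  rw [P.Good_iff hA (zero_mem (P.KS _)) (zero_mem _), Del_zero, sub_zero]

/-- the map to `K` -/
noncomputable def fRt : P.Rt →+* P.KK where
  toFun x := ⟨x.1.fst, P.Good_KK x.2.2⟩
  map_one' := rfl
  map_zero' := rfl
  map_add' _ _ := rfl
  map_mul' _ _ := rfl

/-- the ideal `(0, D^)` -/
noncomputable def aId : Ideal P.Rt where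
  carrier := {x | x.1.fst = 0 ∧ x.1.snd ∈ Dh Γ F}
  add_mem' := by
    rintro x y ⟨hx, hx'⟩ ⟨hy, hy'⟩
    refine ⟨?_, ?_⟩
    · show x.1.fst + y.1.fst = 0
      rw [hx, hy, add_zero]
    · exact add_mem hx' hy'
  zero_mem' := ⟨rfl, zero_mem (Dh Γ F)⟩
  smul_mem' := by
    rintro c x ⟨hx, hx'⟩
    refine ⟨?_, ?_⟩
    · show c.1.fst * x.1.fst = 0
      rw [hx, mul_zero]
    · have h : (c • x).1.snd = c.1.fst * x.1.snd := by
        show (c.1 * x.1).snd = _
        rw [TrivSqZeroExt.snd_mul, hx]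
        simp
      rw [h]
      exact mul_mem c.2.1 hx'

/-- the chain ring -/
abbrev RR : Type := P.Rt ⧸ P.aId

/-- the map to `K` -/
noncomputable def fR : P.RR →+* P.KK := Ideal.Quotient.lift P.aId P.fRt (by
  rintro x ⟨hx, -⟩
  apply Subtype.ext
  exact hx)

/-- pairs -/
def pr (a b : HahnSeries Γ F) : TrivSqZeroExt (HahnSeries Γ F) (HahnSeries Γ F) := (a, b)

/-- elements -/
noncomputable def el (a b : HahnSeries Γ F) (h : a ∈ Dh Γ F ∧ P.Good a b) : P.RR :=
  Ideal.Quotient.mk P.aId ⟨pr a b, h⟩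

theorem fR_el (a b : HahnSeries Γ F) (h : a ∈ Dh Γ F ∧ P.Good a b) : ((P.fR (P.el a b h) : P.KK) : HahnSeries Γ F) = a := by
  unfold fR el
  rw [Ideal.Quotient.lift_mk]
  rfl

theorem el_surj (r : P.RR) : ∃ a b h, r = P.el a b h := by
  obtain ⟨x, rfl⟩ := Ideal.Quotient.mk_surjective r
  exact ⟨x.1.fst, x.1.snd, x.2, rfl⟩

theorem el_eq_iff (a b a' b' : HahnSeries Γ F) (h h') : P.el a b h = P.el a' b' h' ↔ a = a' ∧ b - b' ∈ Dh Γ F := by
  unfold el
  rw [Ideal.Quotient.eq]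
  constructor
  · rintro ⟨h1, h2⟩
    exact ⟨sub_eq_zero.mp h1, h2⟩
  · rintro ⟨h1, h2⟩
    exact ⟨sub_eq_zero.mpr h1, h2⟩

theorem el_mul (a b a' b' : HahnSeries Γ F) (h h') : ∃ h'', P.el a b h * P.el a' b' h' = P.el (a * a') (a * b' + a' * b) h'' := by
  have e : pr a b * pr a' b' = pr (a * a') (a * b' + a' * b) := by
    apply TrivSqZeroExt.ext
    · rfl
    · rw [TrivSqZeroExt.snd_mul]
      show a • b' + MulOpposite.op a' • b = a * b' + a' * b
      simp [mul_comm]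
  have h1 : pr a b ∈ P.Rt := h
  have h2 : pr a' b' ∈ P.Rt := h'
  have h3 := mul_mem h1 h2
  rw [e] at h3
  refine ⟨h3, ?_⟩
  unfold el
  rw [← map_mul]
  congr 1
  apply Subtype.ext
  exact e

theorem el_add (a b a' b' : HahnSeries Γ F) (h h') : ∃ h'', P.el a b h + P.el a' b' h' = P.el (a + a') (b + b') h'' := by
  have h1 : pr a b ∈ P.Rt := h
  have h2 : pr a' b' ∈ P.Rt := h'
  have h3 : a + a' ∈ Dh Γ F ∧ P.Good (a + a') (b + b') := add_mem h1 h2
  exact ⟨h3, rfl⟩

theorem el_sub (a b a' b' : HahnSeries Γ F) (h h') : ∃ h'', P.el a b h - P.el a' b' h' = P.el (a - a') (b - b') h'' := by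
  have h1 : pr a b ∈ P.Rt := h
  have h2 : pr a' b' ∈ P.Rt := h'
  have h3 : a - a' ∈ Dh Γ F ∧ P.Good (a - a') (b - b') := sub_mem h1 h2
  exact ⟨h3, rfl⟩

/-- the divisible ideal -/
noncomputable def UR : P.KK →+ P.RR where
  toFun κ := P.el 0 κ.1 ⟨zero_mem _, (P.Good_zero _).mpr (P.KK_KD κ.2)⟩
  map_zero' := by
    rw [show (0 : P.RR) = P.el 0 0 ⟨zero_mem _, (P.Good_zero _).mpr (zero_mem _)⟩ from rfl, el_eq_iff]
    exact ⟨rfl, by rw [sub_zero]; exact zero_mem _⟩
  map_add' κ κ' := by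
    obtain ⟨h, e⟩ := P.el_add 0 κ.1 0 κ'.1 ⟨zero_mem _, (P.Good_zero _).mpr (P.KK_KD κ.2)⟩ ⟨zero_mem _, (P.Good_zero _).mpr (P.KK_KD κ'.2)⟩
    rw [e, el_eq_iff]
    refine ⟨(add_zero 0).symm, ?_⟩
    show (κ.1 + κ'.1) - (κ.1 + κ'.1) ∈ _
    rw [sub_self]
    exact zero_mem _

theorem UR_def (κ : P.KK) : P.UR κ = P.el 0 κ.1 ⟨zero_mem _, (P.Good_zero _).mpr (P.KK_KD κ.2)⟩ := rfl

variable (Γ F) in
omit [CharZero F] in
theorem Dh_total (x : HahnSeries Γ F) : x ∈ Dh Γ F ∨ x⁻¹ ∈ Dh Γ F := by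
  by_cases hx : x = 0
  · left
    rw [hx]
    exact zero_mem _
  rcases le_or_gt 0 x.order with h | h
  · left
    intro γ hγ
    exact HahnSeries.coeff_eq_zero_of_lt_order (lt_of_lt_of_le hγ h)
  · right
    intro γ hγ
    apply HahnSeries.coeff_eq_zero_of_lt_order
    refine lt_trans hγ ?_
    have h1 : (x * x⁻¹).order = x.order + x⁻¹.order := HahnSeries.order_mul hx (inv_ne_zero hx)
    rw [mul_inv_cancel₀ hx, HahnSeries.order_one] at h1
    have h2 : x⁻¹.order = - x.order := by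
      rw [eq_neg_iff_add_eq_zero, add_comm]
      exact h1.symm
    rw [h2]
    exact neg_pos.mpr h

/-- the valuation ring of `K` -/
noncomputable def OK : ValuationSubring P.KK where
  carrier := {x | (x : HahnSeries Γ F) ∈ Dh Γ F}
  mul_mem' ha hb := (Dh Γ F).mul_mem ha hb
  one_mem' := (Dh Γ F).one_mem
  add_mem' ha hb := (Dh Γ F).add_mem ha hb
  zero_mem' := (Dh Γ F).zero_mem
  neg_mem' ha := (Dh Γ F).neg_mem ha
  mem_or_inv_mem' x := Dh_total Γ F x.1

theorem mem_OK (x : P.KK) : x ∈ P.OK ↔ (x : HahnSeries Γ F) ∈ Dh Γ F := Iff.rfl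

/-- the valuation of `K` -/
noncomputable def vK : Valuation P.KK P.OK.ValueGroup := P.OK.valuation

theorem vK_le_one (x : P.KK) : P.vK x ≤ 1 ↔ (x : HahnSeries Γ F) ∈ Dh Γ F := by
  rw [← mem_OK]
  exact P.OK.valuation_le_one_iff x

/-- the chain ring data -/
noncomputable def rd : RD P.vK P.RR where
  f := P.fR
  U := P.UR
  hf1 := by
    intro r
    obtain ⟨a, b, h, rfl⟩ := P.el_surj r
    rw [vK_le_one, fR_el]
    exact h.1
  hf2 := by
    intro a ha
    rw [vK_le_one] at ha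
    obtain ⟨S, m, hA, haS, _⟩ := P.exists_adm a.1 a.1 a.2 a.2
    refine ⟨P.el a.1 (P.Del S m a.1) ⟨ha, ⟨S, m, hA, haS, by rw [sub_self]; exact zero_mem _⟩⟩, ?_⟩
    apply Subtype.ext
    rw [fR_el]
  hf3 := by
    intro r hr
    obtain ⟨a, b, h, rfl⟩ := P.el_surj r
    have h1 : a = 0 := by
      rw [← P.fR_el a b h, hr]
      rfl
    subst h1
    obtain ⟨κ, hκ, hb⟩ := (P.Good_zero b).mp h.2
    refine ⟨⟨κ, hκ⟩, ?_⟩
    rw [UR_def, el_eq_iff]
    exact ⟨rfl, hb⟩
  hfU := by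
    intro κ
    rw [UR_def]
    apply Subtype.ext
    rw [fR_el]
    rfl
  hU := by
    intro κ
    rw [vK_le_one, UR_def, show (0 : P.RR) = P.el 0 0 ⟨zero_mem _, (P.Good_zero _).mpr (zero_mem _)⟩ from rfl, el_eq_iff]
    rw [sub_zero]
    exact ⟨fun h => h.2, fun h => ⟨rfl, h⟩⟩
  hmul := by
    intro r κ
    obtain ⟨a, b, h, rfl⟩ := P.el_surj r
    rw [UR_def, UR_def]
    obtain ⟨h', e⟩ := P.el_mul a b 0 κ.1 h ⟨zero_mem _, (P.Good_zero _).mpr (P.KK_KD κ.2)⟩
    rw [e, el_eq_iff]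
    refine ⟨mul_zero a, ?_⟩
    have h2 : ((P.fR (P.el a b h) * κ : P.KK) : HahnSeries Γ F) = a * κ.1 := by
      have h3 : ((P.fR (P.el a b h) * κ : P.KK) : HahnSeries Γ F) = ((P.fR (P.el a b h) : P.KK) : HahnSeries Γ F) * κ.1 := rfl
      rw [h3, P.fR_el a b h]
    show a * κ.1 + 0 * b - ((P.fR (P.el a b h) * κ : P.KK) : HahnSeries Γ F) ∈ _
    rw [h2, zero_mul, add_zero, sub_self]
    exact zero_mem _

end Setup
end EH





namespace EH

open scoped TensorProduct Pointwise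

section Hull

variable {R : Type} [CommRing R]

theorem exists_injective (A : Type) [AddCommGroup A] [Module R A] :
    ∃ (E : Type) (_ : AddCommGroup E) (_ : Module R E) (j : A →ₗ[R] E),
      Function.Injective j ∧ Module.Injective R E := by
  let X : ModuleCat.{0} R := ModuleCat.of R A
  let E := CategoryTheory.Injective.under X
  let j := CategoryTheory.Injective.ι X
  refine ⟨E, inferInstance, inferInstance, j.hom, ?_, ?_⟩
  · exact (ModuleCat.mono_iff_injective j).mp inferInstance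
  · rw [Module.injective_iff_injective_object]
    exact (inferInstance : CategoryTheory.Injective E)

/-- maximal essential extension -/
theorem exists_hull (A : Type) [AddCommGroup A] [Module R A] :
    ∃ (N : Type) (_ : AddCommGroup N) (_ : Module R N) (ι : A →ₗ[R] N),
      Function.Injective ι ∧ Module.Injective R N ∧
      ∀ y : N, y ≠ 0 → ∃ (r : R) (a : A), r • y = ι a ∧ ι a ≠ 0 := by
  obtain ⟨E, _, _, j, hj, hE⟩ := exists_injective (R := R) A
  let Ess : Submodule R E → Prop := fun N => LinearMap.range j ≤ N ∧ ∀ y ∈ N, y ≠ 0 → ∃ (r : R) (a : A), r • y = j a ∧ j a ≠ 0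
  have hz := zorn_le_nonempty₀ {N | Ess N} (by
    intro c hc hchain y hy
    refine ⟨sSup c, ?_, fun z hz => le_sSup hz⟩
    refine ⟨(hc hy).1.trans (le_sSup hy), ?_⟩
    intro x hx hx0
    rw [Submodule.mem_sSup_of_directed ⟨y, hy⟩ hchain.directedOn] at hx
    obtain ⟨N, hN, hxN⟩ := hx
    exact (hc hN).2 x hxN hx0) (LinearMap.range j) ⟨le_rfl, by
      rintro _ ⟨a, rfl⟩ h
      exact ⟨1, a, one_smul _ _, h⟩⟩
  obtain ⟨N, -, hNmax⟩ := hz
  have hN : Ess N := hNmax.prop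
  have hz2 := zorn_le_nonempty₀ {C : Submodule R E | C ⊓ N = ⊥} (by
    intro c hc hchain y hy
    refine ⟨sSup c, ?_, fun z hz => le_sSup hz⟩
    show sSup c ⊓ N = ⊥
    rw [eq_bot_iff]
    rintro x ⟨hx, hxN⟩
    rw [SetLike.mem_coe, Submodule.mem_sSup_of_directed ⟨y, hy⟩ hchain.directedOn] at hx
    obtain ⟨C, hC, hxC⟩ := hx
    have h1 : C ⊓ N = ⊥ := hc hC
    rw [← h1]
    exact ⟨hxC, hxN⟩) ⊥ (by
      show (⊥ : Submodule R E) ⊓ N = ⊥
      exact bot_inf_eq _)
  obtain ⟨C, -, hCmax⟩ := hz2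
  have hC : C ⊓ N = ⊥ := hCmax.prop
  -- essentiality in the quotient
  have hq : ∀ e : E ⧸ C, e ≠ 0 → ∃ (r : R) (n : E), n ∈ N ∧ n ≠ 0 ∧ r • e = C.mkQ n := by
    intro e he
    obtain ⟨x, rfl⟩ := C.mkQ_surjective e
    have hxC : x ∉ C := by
      intro h
      exact he ((Submodule.Quotient.mk_eq_zero C).mpr h)
    by_contra hcon
    push Not at hcon
    have h1 : (C ⊔ Submodule.span R {x}) ⊓ N = ⊥ := by
      rw [eq_bot_iff]
      rintro n ⟨hn, hnN⟩
      rw [SetLike.mem_coe, Submodule.mem_sup] at hn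
      obtain ⟨c, hc, y, hy, hcy⟩ := hn
      obtain ⟨r, rfl⟩ := Submodule.mem_span_singleton.mp hy
      rw [Submodule.mem_bot]
      by_contra hn0
      apply hcon r n hnN hn0
      rw [← hcy, map_add, map_smul]
      have h2 : C.mkQ c = 0 := (Submodule.Quotient.mk_eq_zero C).mpr hc
      rw [h2, zero_add]
    have h2 := hCmax.le_of_ge (y := C ⊔ Submodule.span R {x}) h1 le_sup_left
    exact hxC (h2 (Submodule.mem_sup_right (Submodule.mem_span_singleton_self x)))
  have hqN : ∀ n ∈ N, C.mkQ n = 0 → n = 0 := by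
    intro n hn h
    have h1 : n ∈ C := (Submodule.Quotient.mk_eq_zero C).mp h
    have h2 : n ∈ C ⊓ N := ⟨h1, hn⟩
    rw [hC] at h2
    exact (Submodule.mem_bot R).mp h2
  let f : N →ₗ[R] E ⧸ C := C.mkQ ∘ₗ N.subtype
  have hf : Function.Injective f := by
    rw [← LinearMap.ker_eq_bot, LinearMap.ker_eq_bot']
    intro n hn
    exact Subtype.ext (hqN n.1 n.2 hn)
  obtain ⟨h, hh⟩ := hE.out f hf N.subtype
  have hhN : ∀ n ∈ N, h (C.mkQ n) = n := fun n hn => hh ⟨n, hn⟩
  have hrange : LinearMap.range h ≤ N := by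
    apply hNmax.le_of_ge (y := LinearMap.range h)
    · refine ⟨?_, ?_⟩
      · rintro x hx
        exact ⟨C.mkQ x, hhN x (hN.1 hx)⟩
      · rintro _ ⟨e, rfl⟩ he
        have he0 : e ≠ 0 := by
          intro h0
          apply he
          rw [h0, map_zero]
        obtain ⟨r, n, hn, hn0, hrn⟩ := hq e he0
        obtain ⟨r', a, ha, ha0⟩ := hN.2 n hn hn0
        refine ⟨r' * r, a, ?_, ha0⟩
        rw [mul_smul, ← map_smul h r e, hrn, hhN n hn, ha]
    · intro x hx
      exact ⟨C.mkQ x, hhN x hx⟩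
  let ρ : E →ₗ[R] N := (h ∘ₗ C.mkQ).codRestrict N (fun x => hrange ⟨_, rfl⟩)
  have hρ : ∀ n : N, ρ n = n := fun n => Subtype.ext (hhN n.1 n.2)
  refine ⟨N, inferInstance, inferInstance, j.codRestrict N (fun a => hN.1 ⟨a, rfl⟩), ?_, ?_, ?_⟩
  · intro a b hab
    apply hj
    exact congrArg Subtype.val hab
  · refine ⟨fun X Y _ _ _ _ φ hφ g => ?_⟩
    obtain ⟨k, hk⟩ := hE.out φ hφ (N.subtype ∘ₗ g)
    refine ⟨ρ ∘ₗ k, fun x => ?_⟩
    show ρ (k (φ x)) = g x
    rw [hk]
    exact hρ (g x)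
  · intro y hy
    obtain ⟨r, a, h1, h2⟩ := hN.2 y.1 y.2 (fun h => hy (Subtype.ext h))
    exact ⟨r, a, Subtype.ext h1, fun h => h2 (congrArg Subtype.val h)⟩

/-- purity gives divisibility -/
theorem pure_dvd {M N : Type} [AddCommGroup M] [Module R M] [AddCommGroup N] [Module R N] (i : M →ₗ[R] N)
    (hi : ∀ (Y : Type) [AddCommGroup Y] [Module R Y], Function.Injective (LinearMap.lTensor Y i))
    (r : R) (m : M) (n : N) (h : i m = r • n) : ∃ m' : M, m = r • m' := by
  let I : Ideal R := Ideal.span {r}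
  have h0 : r • (1 : R ⧸ I) = 0 := by
    have h1 : r • (1 : R ⧸ I) = Ideal.Quotient.mk I r := by
      rw [← map_one (Ideal.Quotient.mk I)]
      show Ideal.Quotient.mk I (r • 1) = _
      rw [smul_eq_mul, mul_one]
    rw [h1, Ideal.Quotient.eq_zero_iff_mem]
    exact Ideal.mem_span_singleton_self r
  have h1 : (1 : R ⧸ I) ⊗ₜ[R] m = 0 := by
    apply hi (R ⧸ I)
    rw [map_zero, LinearMap.lTensor_tmul, h, TensorProduct.tmul_smul, TensorProduct.smul_tmul', h0,
      TensorProduct.zero_tmul]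
  have h2 := congrArg (TensorProduct.quotTensorEquivQuotSMul M I) h1
  rw [map_zero, TensorProduct.quotTensorEquivQuotSMul_mk_one_tmul, Submodule.Quotient.mk_eq_zero] at h2
  have h3 : I • (⊤ : Submodule R M) = r • (⊤ : Submodule R M) := Submodule.ideal_span_singleton_smul r ⊤
  rw [h3, Submodule.mem_smul_pointwise_iff_exists] at h2
  obtain ⟨m', -, hm'⟩ := h2
  exact ⟨m', hm'.symm⟩

theorem pure_inj {M N : Type} [AddCommGroup M] [Module R M] [AddCommGroup N] [Module R N] (i : M →ₗ[R] N)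
    (hi : ∀ (Y : Type) [AddCommGroup Y] [Module R Y], Function.Injective (LinearMap.lTensor Y i)) :
    Function.Injective i := by
  intro a b hab
  have h1 : (1 : R) ⊗ₜ[R] a = (1 : R) ⊗ₜ[R] b := by
    apply hi R
    rw [LinearMap.lTensor_tmul, LinearMap.lTensor_tmul, hab]
  have h2 := congrArg (TensorProduct.lid R M) h1
  simpa using h2

end Hull

end EH

namespace EH
namespace Setup

variable {Ω Γ F : Type} [LinearOrder Ω] [WellFoundedLT Ω] [AddCommGroup Γ] [LinearOrder Γ]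
    [IsOrderedAddMonoid Γ] [Field F] [CharZero F] (P : Setup Ω Γ F)

theorem no_split
    (hcomb : ∀ S : Ω → Ω → Finset Ω, ∃ l i j k : Ω, l < i ∧ i < j ∧ j < k ∧ l ∉ S i j ∧ l ∉ S j k ∧ l ∉ S i k ∧
      ∀ m, l < m → m ∈ S i j → m ∈ S j k → m ∈ S i k → False)
    (A : Ω → Ω → HahnSeries Γ F) (hA : ∀ i j, A i j ∈ P.KK)
    (h : ∀ l i j k, l < i → i < j → j < k → P.X i j l + P.X j k l - P.X i k l
      + (A i j).coeff (- P.pi l) + (A j k).coeff (- P.pi l) - (A i k).coeff (- P.pi l) = 0) : False := by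
  classical
  choose S0 hS0 using hA
  let S : Ω → Ω → Finset Ω := fun i j => insert i (insert j (S0 i j))
  have hS : ∀ i j, A i j ∈ P.KS (S i j) := fun i j =>
    P.KS_mono ((Finset.subset_insert _ _).trans (Finset.subset_insert _ _)) (hS0 i j)
  have hSl : ∀ i j, i ∈ S i j := fun i j => Finset.mem_insert_self _ _
  have hSr : ∀ i j, j ∈ S i j := fun i j => Finset.mem_insert_of_mem (Finset.mem_insert_self _ _)
  obtain ⟨l, i, j, k, hli, hij, hjk, h1, h2, h3, h4⟩ := hcomb S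
  have hik := hij.trans hjk
  let w : Ω → Ω → Ω → ℤ := fun a b l' =>
    if l' = l ∧ l < a ∧ a < b ∧ a ∈ S i k ∧ b ∈ S i k then
      (if b ∈ S j k then 1 else 0) - (if a ∈ S j k then 1 else 0) else 0
  have hwl : ∀ a b l', l' ≠ l → w a b l' = 0 := by
    intro a b l' hne
    exact if_neg (fun h => hne h.1)
  have hw2 : ∀ a b, l < a → a < b → a ∈ S i k → b ∈ S i k → w a b l = (if b ∈ S j k then 1 else 0) - (if a ∈ S j k then 1 else 0) := by
    intro a b h1 h2 h3 h4
    exact if_pos ⟨rfl, h1, h2, h3, h4⟩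
  have hw3 : ∀ a b, (¬ (a ∈ S i k ∧ b ∈ S i k)) → w a b l = 0 := by
    intro a b h
    exact if_neg (fun h' => h ⟨h'.2.2.2.1, h'.2.2.2.2⟩)
  -- annihilation
  have hann1 : Ann (S i j) w := by
    have hz : ∀ a ∈ S i j, ∀ b ∈ S i j, ∀ l', w a b l' = 0 := by
      intro a ha b hb l'
      by_cases hl' : l' = l
      · subst hl'
        show (if _ ∧ _ ∧ _ ∧ _ ∧ _ then _ else _) = _
        split_ifs with h5 h6 h7 h7
        · simp
        · exfalso
          exact h4 b (h5.2.1.trans h5.2.2.1) hb h6 h5.2.2.2.2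
        · exfalso
          exact h4 a h5.2.1 ha h7 h5.2.2.2.1
        · simp
        · rfl
      · exact hwl a b l' hl'
    refine ⟨fun a ha b hb d hd l' _ _ _ => ?_, fun a ha b hb l' _ => hz a ha b hb l'⟩
    rw [hz a ha b hb, hz b hb d hd, hz a ha d hd]
    norm_num
  have hann2 : Ann (S j k) w := by
    have hz : ∀ a ∈ S j k, ∀ b ∈ S j k, ∀ l', w a b l' = 0 := by
      intro a ha b hb l'
      by_cases hl' : l' = l
      · subst hl'
        show (if _ ∧ _ ∧ _ ∧ _ ∧ _ then _ else _) = _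
        rw [if_pos ha, if_pos hb]
        simp
      · exact hwl a b l' hl'
    refine ⟨fun a ha b hb d hd l' _ _ _ => ?_, fun a ha b hb l' _ => hz a ha b hb l'⟩
    rw [hz a ha b hb, hz b hb d hd, hz a ha d hd]
    norm_num
  have hann3 : Ann (S i k) w := by
    refine ⟨fun a ha b hb d hd l' hla hab hbd => ?_, fun a ha b hb l' hl' => ?_⟩
    · by_cases hl' : l' = l
      · subst hl'
        rw [hw2 a b hla hab ha hb, hw2 b d (hla.trans hab) hbd hb hd, hw2 a d hla (hab.trans hbd) ha hd]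
        ring
      · rw [hwl _ _ _ hl', hwl _ _ _ hl', hwl _ _ _ hl']
        norm_num
    · exact hwl a b l' (fun h => h3 (h ▸ hl'))
  have e := h l i j k hli hij hjk
  have e2 := congrArg (P.θ w) e
  rw [map_sub, map_add, map_add, map_sub, map_add, map_zero,
    ((P.mem_KS_iff _ _).mp (hS i j)).1 w hann1, ((P.mem_KS_iff _ _).mp (hS j k)).1 w hann2,
    ((P.mem_KS_iff _ _).mp (hS i k)).1 w hann3, P.θ_X w i j l hij, P.θ_X w j k l hjk, P.θ_X w i k l hik] at e2
  have hj : j ∉ S i k := fun hj => h4 j (hli.trans hij) (hSr i j) (hSl j k) hj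
  have hi : i ∉ S j k := fun hi => h4 i hli (hSl i j) hi (hSl i k)
  have e3 : w i j l = 0 := hw3 i j (fun h => hj h.2)
  have e4 : w j k l = 0 := hw3 j k (fun h => hj h.1)
  have e5 : w i k l = 1 := by
    rw [hw2 i k hli hik (hSl i k) (hSr i k), if_pos (hSr j k), if_neg hi]
    norm_num
  rw [e3, e4, e5] at e2
  push_cast at e2
  have e6 : (1 : F) = 0 := by linear_combination e - e2
  exact one_ne_zero e6

/-- monomials -/
noncomputable def tt (γ : Γ) : HahnSeries Γ F := HahnSeries.single γ 1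

omit [CharZero F] in
theorem tt_mul (γ δ : Γ) : (tt γ * tt δ : HahnSeries Γ F) = tt (γ + δ) := by
  unfold tt
  rw [HahnSeries.single_mul_single, one_mul]

omit [CharZero F] in
theorem tt_zero : (tt 0 : HahnSeries Γ F) = 1 := rfl

omit [CharZero F] in
theorem tt_ne (γ : Γ) : (tt γ : HahnSeries Γ F) ≠ 0 := HahnSeries.single_ne_zero one_ne_zero

omit [CharZero F] in
theorem tt_inv (γ : Γ) : (tt γ : HahnSeries Γ F)⁻¹ = tt (-γ) := by
  apply inv_eq_of_mul_eq_one_right
  rw [tt_mul, add_neg_cancel, tt_zero]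

omit [CharZero F] in
theorem tt_div (γ δ : Γ) : (tt γ / tt δ : HahnSeries Γ F) = tt (γ - δ) := by
  rw [div_eq_mul_inv, tt_inv, tt_mul, sub_eq_add_neg]

omit [CharZero F] in
theorem tt_mem_Dh (γ : Γ) : (tt γ : HahnSeries Γ F) ∈ Dh Γ F ↔ 0 ≤ γ := by
  constructor
  · intro h
    by_contra hcon
    have h1 := h γ (not_le.mp hcon)
    unfold tt at h1
    rw [HahnSeries.coeff_single_same] at h1
    exact one_ne_zero h1
  · intro h δ hδ
    unfold tt
    rw [HahnSeries.coeff_single_of_ne]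
    intro h'
    rw [h'] at hδ
    exact absurd hδ (not_lt.mpr h)

omit [CharZero F] in
theorem mul_tt_coeff (x : HahnSeries Γ F) (γ δ : Γ) : (x * tt γ).coeff δ = x.coeff (δ - γ) := by
  unfold tt
  rw [HahnSeries.coeff_mul_single, mul_one]

theorem tt_KS (S : Finset Ω) (γ : Γ) (h : ∀ s, s ∉ S → P.c s γ = 0) : tt γ ∈ P.KS S := by
  rw [mem_KS_iff]
  refine ⟨fun w _ δ => ?_, fun s hs δ hδ => ?_⟩
  · unfold tt
    by_cases hδ : δ = γ
    · rw [hδ, HahnSeries.coeff_single_same, map_one]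
    · rw [HahnSeries.coeff_single_of_ne hδ, map_zero]
  · by_cases hδ' : δ = γ
    · rw [hδ']
      exact h s hs
    · exfalso
      apply hδ
      unfold tt
      rw [HahnSeries.coeff_single_of_ne hδ']

theorem tt_al_KS (i : Ω) : tt (P.al i) ∈ P.KS {i} := by
  apply P.tt_KS
  intro s hs
  rw [P.c_al, if_neg (fun h => hs (Finset.mem_singleton.mpr h))]

/-- `t_i` -/
noncomputable def tK (i : Ω) : P.KK := ⟨tt (P.al i), P.KS_le_KK _ (P.tt_al_KS i)⟩

theorem tK_coe (i : Ω) : ((P.tK i : P.KK) : HahnSeries Γ F) = tt (P.al i) := rfl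

theorem tK_ne (i : Ω) : P.tK i ≠ 0 := by
  intro h
  exact tt_ne (P.al i) (congrArg Subtype.val h)

/-- `T` -/
noncomputable def TK : P.KK := P.tK P.bot * P.tK P.bot

theorem TK_coe : ((P.TK : P.KK) : HahnSeries Γ F) = tt P.chi := by
  rw [P.hchi, ← tt_mul]
  rfl

theorem TK_ne : P.TK ≠ 0 := mul_ne_zero (P.tK_ne _) (P.tK_ne _)

theorem vK_le (x y : P.KK) (hy : y ≠ 0) : P.vK x ≤ P.vK y ↔ (x : HahnSeries Γ F) / (y : HahnSeries Γ F) ∈ Dh Γ F := by
  have h1 : (x : HahnSeries Γ F) / (y : HahnSeries Γ F) = ((x / y : P.KK) : HahnSeries Γ F) := rfl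
  rw [h1, ← vK_le_one, map_div₀, div_le_one₀ (zero_lt_iff.mpr ((Valuation.ne_zero_iff _).mpr hy))]

theorem vK_tK_lt (i k : Ω) (h : i < k) : P.vK (P.tK k) < P.vK (P.tK i) := by
  rw [← not_le, vK_le _ _ _ (P.tK_ne k), tK_coe, tK_coe, tt_div, tt_mem_Dh, not_le, sub_neg]
  exact P.al_lt _ _ h

theorem tt_sub_KS (i j : Ω) : tt (P.al j - P.al i) ∈ P.KS {i, j} := by
  apply P.tt_KS
  intro s hs
  rw [Finset.mem_insert, Finset.mem_singleton, not_or] at hs
  rw [map_sub, P.c_al, P.c_al, if_neg hs.1, if_neg hs.2, sub_zero]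

theorem der_tt (s : Ω) (γ : Γ) : P.der s (tt γ) = ((P.c s γ : ℤ) : HahnSeries Γ F) * tt γ := by
  have h1 : (((P.c s γ : ℤ) : HahnSeries Γ F)) = HahnSeries.single 0 ((P.c s γ : ℤ) : F) :=
    (HahnSeries.single_zero_intCast _).symm
  rw [h1]
  unfold tt
  rw [HahnSeries.single_mul_single, zero_add, mul_one]
  ext δ
  rw [der_coeff]
  by_cases hδ : δ = γ
  · rw [hδ, HahnSeries.coeff_single_same, HahnSeries.coeff_single_same, mul_one]
  · rw [HahnSeries.coeff_single_of_ne hδ, HahnSeries.coeff_single_of_ne hδ, mul_zero]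

theorem g_self (j : Ω) : P.g j j = 0 := by
  unfold g
  ext γ
  rw [HahnSeries.coeff_zero]
  rcases P.HH_cases γ with ⟨l, rfl⟩ | h
  · rw [HH_coeff, P.X_zero j j l (lt_irrefl _), ite_self]
  · exact P.HH_coeff_ne _ _ h

theorem Del_tt (i j : Ω) (h : i < j) : P.Del {i, j} j (tt (P.al j - P.al i)) = P.g i j * tt (P.al j - P.al i) := by
  unfold Del
  rw [Finset.sum_pair h.ne, g_self, zero_mul, add_zero, der_tt, map_sub, P.c_al, P.c_al, if_neg h.ne, if_pos rfl]
  push_cast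
  ring

theorem rho_mem (i j : Ω) (h : i < j) : (tt (P.al j - P.al i) : HahnSeries Γ F) ∈ Dh Γ F ∧
    P.Good (tt (P.al j - P.al i)) (P.g i j * tt (P.al j - P.al i)) := by
  refine ⟨?_, {i, j}, j, ⟨?_, ?_⟩, P.tt_sub_KS i j, ?_⟩
  · rw [tt_mem_Dh]
    exact (sub_pos.mpr (P.al_lt _ _ h)).le
  · simp
  · intro s hs
    rw [Finset.mem_insert, Finset.mem_singleton] at hs
    rcases hs with rfl | rfl
    · exact h.le
    · exact le_rfl
  · rw [P.Del_tt i j h, sub_self]
    exact zero_mem _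

theorem coeff_zero_of (d : HahnSeries Γ F) (hd : d ∈ Dh Γ F) (l : Ω) (γ : Γ) (hγ : -γ < P.pi l) :
    (d * tt γ).coeff (- P.pi l) = 0 := by
  rw [mul_tt_coeff]
  apply hd
  have : -P.pi l - γ = -γ - P.pi l := by abel
  rw [this]
  exact sub_neg.mpr hγ

theorem cocycle (r : Ω → Ω → P.RR) (hr : ∀ i j, i < j → P.rd.f (r i j) = P.tK j / P.tK i)
    (hc : ∀ i j k, i < j → j < k → ∃ κ, r i j * r j k - r i k = P.rd.U κ ∧ ∃ l, P.vK (κ * P.tK l) ≤ P.vK (P.tK k)) :
    ∃ A : Ω → Ω → HahnSeries Γ F, (∀ i j, A i j ∈ P.KK) ∧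
    ∀ l i j k, l < i → i < j → j < k → P.X i j l + P.X j k l - P.X i k l
      + (A i j).coeff (- P.pi l) + (A j k).coeff (- P.pi l) - (A i k).coeff (- P.pi l) = 0 := by
  have h1 : ∀ i j, ∃ κ : P.KK, ∀ h : i < j, r i j = P.el _ _ (P.rho_mem i j h) + P.UR κ := by
    intro i j
    by_cases h : i < j
    · obtain ⟨κ, hκ⟩ := P.rd.hf3 (r i j - P.el _ _ (P.rho_mem i j h)) (by
        rw [map_sub, hr i j h, sub_eq_zero]
        apply Subtype.ext
        show ((P.tK j : P.KK) : HahnSeries Γ F) / ((P.tK i : P.KK) : HahnSeries Γ F) = ((P.fR (P.el _ _ (P.rho_mem i j h)) : P.KK) : HahnSeries Γ F)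
        rw [fR_el, tK_coe, tK_coe, tt_div])
      refine ⟨κ, fun _ => ?_⟩
      have h2 : r i j - P.el _ _ (P.rho_mem i j h) = P.UR κ := hκ
      rw [← h2]
      ring
    · exact ⟨0, fun h' => absurd h' h⟩
  choose κ hκ using h1
  refine ⟨fun i j => (κ i j : HahnSeries Γ F) * tt (-(P.al j - P.al i)), fun i j => ?_, ?_⟩
  · apply mul_mem (κ i j).2
    rw [← tt_inv]
    exact inv_mem (P.KS_le_KK _ (P.tt_sub_KS i j))
  intro l i j k hli hij hjk
  have hik := hij.trans hjk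
  obtain ⟨κ0, hκ0, l', hl'⟩ := hc i j k hij hjk
  rw [hκ i j hij, hκ j k hjk, hκ i k hik] at hκ0
  set γij : Γ := P.al j - P.al i with hγij
  set γjk : Γ := P.al k - P.al j with hγjk
  set γik : Γ := P.al k - P.al i with hγik
  have hγ : γij + γjk = γik := by rw [hγij, hγjk, hγik]; abel
  have hUU : ∀ a b : P.KK, P.UR a * P.UR b = 0 := by
    intro a b
    have h1 := P.rd.hmul (P.UR a) b
    have h2 : P.rd.f (P.UR a) = 0 := P.rd.hfU a
    rw [h2, zero_mul, map_zero] at h1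
    exact h1
  have hmulL : ∀ (a b : HahnSeries Γ F) h (c : P.KK), ∃ h'', P.el a b h * P.UR c = P.el 0 (a * c.1) h'' := by
    intro a b h c
    rw [UR_def]
    obtain ⟨h', e⟩ := P.el_mul a b 0 c.1 h ⟨zero_mem _, (P.Good_zero _).mpr (P.KK_KD c.2)⟩
    have e2 : a * c.1 + 0 * b = a * c.1 := by ring
    have h'' : (0 : HahnSeries Γ F) ∈ Dh Γ F ∧ P.Good 0 (a * c.1) := by
      have := h'
      rw [mul_zero, e2] at this
      exact this
    refine ⟨h'', ?_⟩
    rw [e, el_eq_iff]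
    refine ⟨mul_zero a, ?_⟩
    rw [e2, sub_self]
    exact zero_mem _
  obtain ⟨q1, e1⟩ := P.el_mul _ _ _ _ (P.rho_mem i j hij) (P.rho_mem j k hjk)
  obtain ⟨q2, e2⟩ := hmulL _ _ (P.rho_mem i j hij) (κ j k)
  obtain ⟨q3, e3⟩ := hmulL _ _ (P.rho_mem j k hjk) (κ i j)
  have hexp : (P.el _ _ (P.rho_mem i j hij) + P.UR (κ i j)) * (P.el _ _ (P.rho_mem j k hjk) + P.UR (κ j k))
      = P.el _ _ (P.rho_mem i j hij) * P.el _ _ (P.rho_mem j k hjk) + P.el _ _ (P.rho_mem i j hij) * P.UR (κ j k)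
        + P.el _ _ (P.rho_mem j k hjk) * P.UR (κ i j) + P.UR (κ i j) * P.UR (κ j k) := by ring
  rw [hexp, hUU, add_zero, e1, e2, e3] at hκ0
  obtain ⟨q4, e4⟩ := P.el_add _ _ _ _ q1 q2
  rw [e4] at hκ0
  obtain ⟨q5, e5⟩ := P.el_add _ _ _ _ q4 q3
  rw [e5, UR_def] at hκ0
  obtain ⟨q6, e6⟩ := P.el_add _ _ _ _ (P.rho_mem i k hik) (⟨zero_mem _, (P.Good_zero _).mpr (P.KK_KD (κ i k).2)⟩)
  rw [e6] at hκ0
  obtain ⟨q7, e7⟩ := P.el_sub _ _ _ _ q5 q6
  rw [e7] at hκ0
  have hκ1 : P.el _ _ q7 = P.UR κ0 := hκ0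
  rw [UR_def, el_eq_iff] at hκ1
  have hd := hκ1.2
  -- the element of D^
  set d : HahnSeries Γ F := tt γij * (P.g j k * tt γjk) + tt γjk * (P.g i j * tt γij) + tt γij * (κ j k).1 + tt γjk * (κ i j).1
    - (P.g i k * tt γik + (κ i k).1) - κ0.1 with hddef
  have hkey : P.g i j + P.g j k - P.g i k + (κ i j).1 * tt (-γij) + (κ j k).1 * tt (-γjk) - (κ i k).1 * tt (-γik)
      = d * tt (-γik) + κ0.1 * tt (-γik) := by
    have a1 : (tt γij : HahnSeries Γ F) * tt γjk = tt γik := by rw [tt_mul, hγ]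
    have a2 : (tt γij : HahnSeries Γ F) * tt (-γij) = 1 := by rw [tt_mul, add_neg_cancel, tt_zero]
    have a3 : (tt γjk : HahnSeries Γ F) * tt (-γjk) = 1 := by rw [tt_mul, add_neg_cancel, tt_zero]
    have a4 : (tt γik : HahnSeries Γ F) * tt (-γik) = 1 := by rw [tt_mul, add_neg_cancel, tt_zero]
    have a5 : (tt (-γik) : HahnSeries Γ F) = tt (-γij) * tt (-γjk) := by
      rw [tt_mul, ← hγ]
      congr 1
      abel
    have b1 : (tt γij : HahnSeries Γ F) * tt (-γik) = tt (-γjk) := by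
      rw [a5, ← mul_assoc, a2, one_mul]
    have b2 : (tt γjk : HahnSeries Γ F) * tt (-γik) = tt (-γij) := by
      rw [a5, mul_comm (tt (-γij)), ← mul_assoc, a3, one_mul]
    rw [hddef]
    linear_combination (- P.g j k - P.g i j) * a4 + (- P.g j k - P.g i j) * (tt (-γik)) * a1
      - (κ j k).1 * b1 - (κ i j).1 * b2 + P.g i k * a4
  have hcoef := congrArg (fun x => HahnSeries.coeff x (- P.pi l)) hkey
  simp only [HahnSeries.coeff_add, HahnSeries.coeff_sub] at hcoef
  have c1 : (P.g i j).coeff (- P.pi l) = P.X i j l := by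
    unfold g; rw [HH_coeff, if_pos hli]
  have c2 : (P.g j k).coeff (- P.pi l) = P.X j k l := by
    unfold g; rw [HH_coeff, if_pos (hli.trans hij)]
  have c3 : (P.g i k).coeff (- P.pi l) = P.X i k l := by
    unfold g; rw [HH_coeff, if_pos hli]
  have c4 : (d * tt (-γik)).coeff (- P.pi l) = 0 := by
    apply P.coeff_zero_of d hd
    rw [neg_neg]
    exact P.O2 l i k hli hik.le
  have c5 : (κ0.1 * tt (-γik)).coeff (- P.pi l) = 0 := by
    rw [P.vK_le _ _ (P.tK_ne k)] at hl'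
    have h2 : κ0.1 * tt (-γik) = (((κ0 * P.tK l' : P.KK) : HahnSeries Γ F) / ((P.tK k : P.KK) : HahnSeries Γ F)) * tt (P.al i - P.al l') := by
      have h3 : ((κ0 * P.tK l' : P.KK) : HahnSeries Γ F) = κ0.1 * tt (P.al l') := rfl
      rw [h3, tK_coe, mul_div_assoc, tt_div, mul_assoc, tt_mul]
      congr 2
      rw [hγik]
      abel
    rw [h2]
    apply P.coeff_zero_of _ hl'
    rw [neg_sub]
    rcases le_total i l' with h | h
    · exact P.O2 l i l' hli h
    · refine lt_of_le_of_lt ?_ (P.O2 l i i hli le_rfl)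
      rcases eq_or_lt_of_le h with h' | h'
      · rw [h']
      · rw [sub_self]
        exact (sub_neg.mpr (P.al_lt _ _ h')).le
  rw [c1, c2, c3, c4, c5] at hcoef
  linear_combination hcoef

end Setup
end EH


namespace EH

namespace RD

variable {K : Type} [Field K] {Γ₀ : Type} [LinearOrderedCommGroupWithZero Γ₀] {v : Valuation K Γ₀}
    {R : Type} [CommRing R] (D : RD v R)

theorem gen {Ω : Type} [LinearOrder Ω] (bot : Ω) (hbot : ∀ i, bot ≤ i)
    (t : Ω → K) (ht0 : ∀ i, t i ≠ 0) (htlt : ∀ i k, i < k → v (t k) < v (t i)) (T : K) (hT0 : T ≠ 0)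
    (hTlt : ∀ i, v T < v (t i)) :
    ∃ (N : Type) (_ : AddCommGroup N) (_ : Module R N), Nontrivial N ∧
      (∀ A B : Submodule R N, IsCompl A B → A = ⊥ ∨ B = ⊥) ∧ Module.Injective R N ∧
      ∀ (M : Type) [AddCommGroup M] [Module R M], (∀ A B : Submodule R M, A ≤ B ∨ B ≤ A) → Nontrivial M →
        ∀ i : M →ₗ[R] N, (∀ (Y : Type) [AddCommGroup Y] [Module R Y], Function.Injective (LinearMap.lTensor Y i)) →
    ∃ r : Ω → Ω → R, (∀ i j, i < j → D.f (r i j) = t j / t i) ∧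
      ∀ i j k, i < j → j < k → ∃ κ, r i j * r j k - r i k = D.U κ ∧ ∃ l, v (κ * t l) ≤ v (t k) := by
  let I : Ideal R :=
    { carrier := {r | ∃ i, v (D.f r * t i) ≤ v T}
      zero_mem' := ⟨bot, by
        rw [map_zero, zero_mul, map_zero]
        exact zero_le⟩
      add_mem' := by
        rintro a b ⟨i, hi⟩ ⟨j, hj⟩
        have hmono : ∀ (x : K) (i j : Ω), i ≤ j → v (x * t j) ≤ v (x * t i) := by
          intro x i j hij
          rw [map_mul, map_mul]
          apply mul_le_mul_right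
          rcases eq_or_lt_of_le hij with h | h
          · rw [h]
          · exact (htlt _ _ h).le
        refine ⟨max i j, ?_⟩
        rw [map_add, add_mul]
        refine (Valuation.map_add _ _ _).trans (max_le ?_ ?_)
        · exact (hmono _ _ _ (le_max_left i j)).trans hi
        · exact (hmono _ _ _ (le_max_right i j)).trans hj
      smul_mem' := by
        rintro c r ⟨i, hi⟩
        refine ⟨i, ?_⟩
        have h1 : D.f (c • r) * t i = D.f c * (D.f r * t i) := by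
          rw [smul_eq_mul, map_mul, mul_assoc]
        rw [h1, map_mul v]
        calc v (D.f c) * v (D.f r * t i) ≤ 1 * v T := mul_le_mul' (D.hf1 c) hi
          _ = _ := one_mul _ }
  have mem_I : ∀ r, r ∈ I ↔ ∃ i, v (D.f r * t i) ≤ v T := fun r => Iff.rfl
  have one_notMem : (1 : R) ∉ I := by
    rintro ⟨i, hi⟩
    rw [map_one, one_mul] at hi
    exact absurd hi (not_le.mpr (hTlt i))
  clear_value I
  obtain ⟨N, _, _, ι, hι, hN, hess0⟩ := exists_hull (R := R) (R ⧸ I)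
  set x0 : N := ι (Ideal.Quotient.mk I 1) with hx0def
  have hsm : ∀ r : R, r • x0 = ι (Ideal.Quotient.mk I r) := by
    intro r
    rw [hx0def, ← map_smul]
    congr 1
    show Ideal.Quotient.mk I (r • 1) = _
    rw [smul_eq_mul, mul_one]
  have hx0 : ∀ r : R, r • x0 = 0 ↔ ∃ i, v (D.f r * t i) ≤ v T := by
    intro r
    rw [← mem_I, hsm, ← Ideal.Quotient.eq_zero_iff_mem]
    constructor
    · intro h
      exact hι (h.trans (map_zero ι).symm)
    · intro h
      rw [h, map_zero]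
  have hess : ∀ y : N, y ≠ 0 → ∃ r s : R, r • y = s • x0 ∧ s • x0 ≠ 0 := by
    intro y hy
    obtain ⟨r, a, h1, h2⟩ := hess0 y hy
    obtain ⟨s, rfl⟩ := Ideal.Quotient.mk_surjective a
    exact ⟨r, s, by rw [h1, hsm], by rw [hsm]; exact h2⟩
  have hx0ne : x0 ≠ 0 := by
    intro h
    apply one_notMem
    rw [mem_I, ← hx0, one_smul]
    exact h
  refine ⟨N, inferInstance, inferInstance, ⟨x0, 0, hx0ne⟩, ?_, hN, ?_⟩
  · 
    intro A B hAB
    by_contra hcon
    push Not at hcon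
    obtain ⟨hA, hB⟩ := hcon
    obtain ⟨a, haA, ha⟩ := (Submodule.ne_bot_iff A).mp hA
    obtain ⟨b, hbB, hb⟩ := (Submodule.ne_bot_iff B).mp hB
    obtain ⟨r, s, h1, h2⟩ := hess a ha
    obtain ⟨r', s', h1', h2'⟩ := hess b hb
    have hdisj := hAB.disjoint
    rw [Submodule.disjoint_def] at hdisj
    rcases D.dvd_total s s' with ⟨c, hc⟩ | ⟨c, hc⟩
    · apply h2'
      apply hdisj
      · rw [hc, mul_comm, mul_smul, ← h1]
        exact A.smul_mem _ (A.smul_mem _ haA)
      · rw [← h1']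
        exact B.smul_mem _ hbB
    · apply h2
      apply hdisj
      · rw [← h1]
        exact A.smul_mem _ haA
      · rw [hc, mul_comm, mul_smul, ← h1']
        exact B.smul_mem _ (B.smul_mem _ hbB)
  · intro M _ _ hM hMn i hi
    obtain ⟨m, hm⟩ := exists_ne (0 : M)
    exact D.main bot hbot t ht0 htlt T hT0 hN x0 hx0 hess hM i
      (pure_inj i hi) (fun r m n h => pure_dvd i hi r m n h) ⟨m, hm⟩

end RD

/-- least element of `Om` -/
theorem exists_bot : ∃ b : Om, ∀ i, b ≤ i := by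
  obtain ⟨b0, -⟩ := bddOm ∅ (by simp)
  obtain ⟨b, -, hb⟩ := WellFounded.has_min (wellFounded_lt (α := Om)) Set.univ ⟨b0, trivial⟩
  exact ⟨b, fun i => not_lt.mp (hb i trivial)⟩

/-- the concrete data -/
noncomputable def theSetup : Setup Om (Gam Om) (Fl Om) where
  c := Gam.c
  al := Gam.al
  pi := Gam.pi
  bot := exists_bot.choose
  hbot := exists_bot.choose_spec
  chi := Gam.al exists_bot.choose + Gam.al exists_bot.choose
  hchi := rfl
  c_al := Gam.c_al
  c_pi := Gam.c_pi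
  al_lt := Gam.al_lt
  al_lt_chi := Gam.al_lt_chi _ exists_bot.choose_spec
  pi_lt := Gam.pi_lt
  O2 := Gam.O2
  O1 := Gam.O1'
  X := XX
  θ := shiftF
  θ_X := shiftF_XX
  X_zero := XX_zero

namespace Setup

variable {Ω Γ F : Type} [LinearOrder Ω] [WellFoundedLT Ω] [AddCommGroup Γ] [LinearOrder Γ]
    [IsOrderedAddMonoid Γ] [Field F] [CharZero F] (P : Setup Ω Γ F)

theorem vK_TK_lt (i : Ω) : P.vK P.TK < P.vK (P.tK i) := by
  rw [← not_le, vK_le _ _ _ P.TK_ne, tK_coe, TK_coe, tt_div, tt_mem_Dh, not_le, sub_neg]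
  exact P.al_lt_chi _

end Setup

end EH

end Pool.Agent.Helper207.EklofHerzog
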